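import Pool.Agent.H17.QA.Desig

/-!
# BM module Splice: opening finitely many elements

`splice`: the two events depend on `H` and on `Hᶜ` (the second on `T \ H`, so it is measurable) and the second
one contains `X`; `mu_indep`.
-/

open MeasureTheory Filter Topology
open Pool.Agent.H17.IIC Pool.Agent.H41.QC Pool.Agent.H47.GM Pool.Agent.H17.QA

namespace Pool.Agent.H94.BM

variable {n : ℕ}

/-- probability that finitely many elements are open -/
lemma prob_all_open {ι : Type*} (p : unitInterval) (H : Finset ι) :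
    (prodBern ι p).real {ω | ∀ e ∈ H, ω e = true} = (p : ℝ) ^ H.card := by
  have hset : {ω : ι → Bool | ∀ e ∈ H, ω e = true} =
      Set.pi (H : Set ι) (fun _ => ({true} : Set Bool)) := by
    ext ω
    simp [Set.mem_pi]
  have hb : bern p {true} = ENNReal.ofReal (p : ℝ) := by
    simp [bern]
  rw [hset, Measure.real, prodBern,
    Measure.infinitePi_pi (μ := fun _ : ι => bern p) (fun i _ => MeasurableSet.of_discrete),
    Finset.prod_const, hb, ENNReal.toReal_pow, ENNReal.toReal_ofReal p.2.1]

/-- splicing: if `X` has probability at least `q`, then with probability at least `q p^|H|` all of `H` is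
open and the configuration agrees off `H` with a member of `X` -/
theorem splice {ι : Type*} (p : unitInterval) (H T : Finset ι) (X : Set (ι → Bool))
    (hX : On (T : Set ι) X) :
    (p : ℝ) ^ H.card * (prodBern ι p).real X ≤ (prodBern ι p).real
      {ω | (∀ e ∈ H, ω e = true) ∧ ∃ ω' ∈ X, ∀ e ∉ H, ω' e = ω e} := by
  classical
  set A : Set (ι → Bool) := {ω | ∀ e ∈ H, ω e = true} with hA
  set B : Set (ι → Bool) := {ω | ∃ ω' ∈ X, ∀ e ∉ H, ω' e = ω e} with hB
  have hAon : On (H : Set ι) A := by
    intro ω ω' hω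
    simp only [hA, Set.mem_setOf_eq]
    constructor
    · intro h e he
      rw [← hω e he]
      exact h e he
    · intro h e he
      rw [hω e he]
      exact h e he
  have key : ∀ ω ω₂ : ι → Bool, (∀ i ∈ ((T \ H : Finset ι) : Set ι), ω i = ω₂ i) →
      ω ∈ B → ω₂ ∈ B := by
    rintro ω ω₂ hω ⟨ω', hω', hoff⟩
    refine ⟨fun e => if e ∈ H then ω' e else ω₂ e, ?_, ?_⟩
    · refine (hX ω' _ ?_).1 hω'
      intro e he
      by_cases heH : e ∈ H
      · simp [heH]
      · simp only [heH, if_false]
        rw [hoff e heH]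
        apply hω
        rw [Finset.mem_coe, Finset.mem_sdiff]
        exact ⟨he, heH⟩
    · intro e he
      simp [he]
  have hBon : On ((T \ H : Finset ι) : Set ι) B := fun ω ω' hω =>
    ⟨key ω ω' hω, key ω' ω (fun i hi => (hω i hi).symm)⟩
  have hBon2 : On (H : Set ι)ᶜ B := hBon.mono (by
    intro e he
    rw [Finset.mem_coe, Finset.mem_sdiff] at he
    exact he.2)
  have hind := mu_indep (fun _ : ι => p) (H : Set ι) hAon.measurableSet hBon.measurableSet hAon hBon2
  rw [mu_const] at hind
  have hAB : {ω : ι → Bool | (∀ e ∈ H, ω e = true) ∧ ∃ ω' ∈ X, ∀ e ∉ H, ω' e = ω e} = A ∩ B := rfl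
  rw [hAB, hind, hA, prob_all_open]
  have hXB : X ⊆ B := fun ω hω => ⟨ω, hω, fun _ _ => rfl⟩
  exact mul_le_mul_of_nonneg_left (measureReal_mono hXB) (pow_nonneg p.2.1 _)

end Pool.Agent.H94.BM
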