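import Pool.Agent.H17.QA.Defs

/-!
# BM module Walks: lists and walks

`rw_iff`: `Rw` in terms of walks of the open graph (bypass of a walk; the support of a path).
-/

open MeasureTheory Filter Topology
open Pool.Agent.H17.IIC Pool.Agent.H41.QC Pool.Agent.H47.GM Pool.Agent.H17.QA

namespace Pool.Agent.H94.BM

variable {n d : ℕ}

lemma Walks_to {κ : Kind} {ω : El d → Bool} {l : List (V d)} (h : OP κ ω l) {x y : V d}
    (hx : l.head? = some x) (hy : l.getLast? = some y) :
    ∃ q : (Gr κ ω).Walk x y, q.support = l := by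
  have hne : l ≠ [] := by rintro rfl; simp at hx
  have hadj : l.IsChain (Gr κ ω).Adj := by
    rw [List.isChain_iff_getElem]
    intro i hi
    refine ⟨List.isChain_iff_getElem.1 h.chain i hi, ?_⟩
    have ho := h.opn
    cases κ with
    | bond => exact List.isChain_iff_getElem.1 ho i hi
    | site => exact ⟨ho _ (List.getElem_mem _), ho _ (List.getElem_mem _)⟩
  have h1 : l.head hne = x := by
    rw [List.head?_eq_some_head hne] at hx
    exact Option.some.inj hx
  have h2 : l.getLast hne = y := by
    rw [List.getLast?_eq_some_getLast hne] at hy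
    exact Option.some.inj hy
  subst h1 h2
  exact ⟨SimpleGraph.Walk.ofSupport l hne hadj, SimpleGraph.Walk.support_ofSupport hne hadj⟩

lemma Walks_of {κ : Kind} {ω : El d → Bool} {x y : V d} (q : (Gr κ ω).Walk x y) (hq : q.IsPath)
    (hx : κ = .site → ω s(x, x) = true) : OP κ ω q.support ∧ q.support.head? = some x ∧
      q.support.getLast? = some y := by
  have hch := q.isChain_adj_support
  refine ⟨⟨hq.support_nodup, ?_, ?_⟩, ?_, ?_⟩
  · exact List.IsChain.imp (fun a b h => h.1) hch
  · cases κ with
    | bond => exact List.IsChain.imp (fun a b h => h.2) hch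
    | site =>
      intro a ha
      clear hq hch
      induction q with
      | nil =>
        rw [SimpleGraph.Walk.support_nil, List.mem_singleton] at ha
        rw [ha]; exact hx rfl
      | cons hab p ih =>
        rw [SimpleGraph.Walk.support_cons, List.mem_cons] at ha
        rcases ha with rfl | ha
        · exact hx rfl
        · exact ih (fun _ => hab.2.2) ha
  · rw [List.head?_eq_some_head q.support_ne_nil, q.head_support]
  · rw [List.getLast?_eq_some_getLast q.support_ne_nil, q.getLast_support]

theorem rw_iff (κ : Kind) (ω : El d → Bool) (U : Set (V d)) (x y : V d) (N : ℕ) :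
    Rw κ ω U x y N ↔ ∃ q : (Gr κ ω).Walk x y, (∀ v ∈ q.support, v ∈ U) ∧ q.length ≤ N ∧
      (κ = .site → ω s(x, x) = true) := by
  classical
  constructor
  · rintro ⟨l, h, hx, hy, hU, hN⟩
    obtain ⟨q, hq⟩ := Walks_to h hx hy
    refine ⟨q, by rw [hq]; exact hU, ?_, fun hκ => ?_⟩
    · have := q.length_support
      rw [hq] at this
      omega
    · subst hκ
      exact h.opn x (List.mem_of_mem_head? hx)
  · rintro ⟨q, hU, hN, hx⟩
    obtain ⟨h1, h2, h3⟩ := Walks_of q.bypass q.bypass_isPath hx
    refine ⟨q.bypass.support, h1, h2, h3, fun v hv => hU v (q.support_bypass_subset_support hv), ?_⟩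
    have := q.length_bypass_le_length
    rw [SimpleGraph.Walk.length_support]
    omega

lemma rw_trans {κ : Kind} {ω : El d → Bool} {U : Set (V d)} {x y z : V d} {N M : ℕ}
    (h1 : Rw κ ω U x y N) (h2 : Rw κ ω U y z M) : Rw κ ω U x z (N + M) := by
  rw [rw_iff] at h1 h2 ⊢
  obtain ⟨q, hq1, hq2, hq3⟩ := h1
  obtain ⟨r, hr1, hr2, -⟩ := h2
  refine ⟨q.append r, fun v hv => ?_, ?_, hq3⟩
  · rcases SimpleGraph.Walk.mem_support_append_iff _ _ |>.1 hv with h | h
    · exact hq1 v h
    · exact hr1 v h
  · rw [SimpleGraph.Walk.length_append]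
    omega

lemma rw_mono {κ : Kind} {ω ω' : El d → Bool} {U U' : Set (V d)} {x y : V d} {N N' : ℕ}
    (hω : ∀ e, ω e = true → ω' e = true) (hU : U ⊆ U') (hN : N ≤ N') (h : Rw κ ω U x y N) :
    Rw κ ω' U' x y N' := by
  obtain ⟨l, h, hx, hy, hlU, hlN⟩ := h
  refine ⟨l, ⟨h.nodup, h.chain, ?_⟩, hx, hy, fun v hv => hU (hlU v hv), by omega⟩
  have ho := h.opn
  cases κ with
  | bond => exact List.IsChain.imp (fun a b h => hω _ h) ho
  | site => exact fun a ha => hω _ (ho a ha)

/-- in a fully open box -/
lemma rw_box {κ : Kind} {ω : El d → Bool} {c x y : V d} {r : ℕ}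
    (h : ∀ e ∈ InE (Bx c r : Set (V d)), ω e = true) (hx : x ∈ Bx c r) (hy : y ∈ Bx c r) :
    Rw κ ω (Bx c r) x y (Bx c r).card := by
  classical
  have hfull : FullOpen κ ω (Bx c r : Set (V d)) := by
    constructor
    · intro a ha b hb _
      apply h
      intro v hv
      cases κ with
      | bond =>
        rcases Sym2.mem_iff.1 (show v ∈ s(a, b) from hv) with rfl | rfl
        · exact ha
        · exact hb
      | site =>
        rcases Sym2.mem_iff.1 (show v ∈ s(b, b) from hv) with rfl | rfl <;> exact hb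
    · intro _ a ha
      apply h
      intro v hv
      rcases Sym2.mem_iff.1 hv with rfl | rfl <;> exact ha
  obtain ⟨⟨w, hw⟩, -⟩ := Basic_rch_walk (rch_box hfull hx hy) (fun hκ => hfull.2 hκ x hx)
  have hw' : ∀ z ∈ w.support, z ∈ Bx c r := by
    intro z hz
    rcases hw z hz with rfl | h1
    · exact hx
    · exact h1
  obtain ⟨h1, h2, h3⟩ := Walks_of w.bypass w.bypass_isPath (fun hκ => hfull.2 hκ x hx)
  refine ⟨w.bypass.support, h1, h2, h3,
    fun v hv => hw' v (w.support_bypass_subset_support hv), ?_⟩
  have h4 : w.bypass.support.toFinset ⊆ Bx c r := fun z hz =>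
    hw' z (w.support_bypass_subset_support (List.mem_toFinset.1 hz))
  have h5 := Finset.card_le_card h4
  rw [List.toFinset_card_of_nodup h1.nodup] at h5
  omega

end Pool.Agent.H94.BM
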