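import Pool.Agent.H94.BM.OnLem

/-!
# BM module Glue: concatenation of road, rich bridge, road

`[A] ++ r1 ++ l ++ r2 ++ [A']` with `r1`, `r2` the roads and `l` a member of the rich bridge; heights:
`A 0 < r1 < z 0 ≤ l ≤ z' 0 < r2 < A' 0`, so the list has no repetition; the map `l ↦` list is injective.
-/

open MeasureTheory Filter Topology
open Pool.Agent.H17.IIC Pool.Agent.H41.QC Pool.Agent.H47.GM Pool.Agent.H17.QA

namespace Pool.Agent.H94.BM

variable {n d : ℕ}

theorem fam_finite (κ : Kind) (ω : El d → Bool) {A : Set (V d)} (hA : A.Finite) (x y : V d)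
    (N : ℕ) : (Fam κ ω A x y N).Finite := by
  have : Finite A := hA.to_subtype
  refine ((List.finite_length_eq A (N + 1)).image (List.map Subtype.val)).subset ?_
  rintro l ⟨-, h2, -, -, h3⟩
  refine ⟨l.pmap (fun v hv => ⟨v, hv⟩) h3, ?_, ?_⟩
  · show (l.pmap _ _).length = N + 1
    rw [List.length_pmap, h2]
  · rw [List.map_pmap]
    simp

lemma op_append {κ : Kind} {ω : El (n + 2) → Bool} {l₁ l₂ : List (V (n + 2))}
    (h₁ : OP κ ω l₁) (h₂ : OP κ ω l₂) (hh : ∀ a ∈ l₁, ∀ b ∈ l₂, a 0 < b 0)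
    (hj : ∀ x ∈ l₁.getLast?, ∀ y ∈ l₂.head?, LatAdj x y ∧ (κ = .bond → ω s(x, y) = true)) :
    OP κ ω (l₁ ++ l₂) := by
  refine ⟨?_, ?_, ?_⟩
  · rw [List.nodup_append]
    refine ⟨h₁.nodup, h₂.nodup, ?_⟩
    intro a ha b hb hab
    have := hh a ha b hb
    rw [hab] at this
    exact lt_irrefl _ this
  · rw [List.isChain_append]
    exact ⟨h₁.chain, h₂.chain, fun x hx y hy => (hj x hx y hy).1⟩
  · cases κ with
    | bond =>
      show (l₁ ++ l₂).IsChain _
      rw [List.isChain_append]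
      exact ⟨h₁.opn, h₂.opn, fun x hx y hy => (hj x hx y hy).2 rfl⟩
    | site =>
      intro a ha
      rw [List.mem_append] at ha
      rcases ha with ha | ha
      · exact h₁.opn a ha
      · exact h₂.opn a ha

lemma op_single {κ : Kind} {ω : El d → Bool} {x : V d} (h : κ = .site → ω s(x, x) = true) :
    OP κ ω [x] := by
  refine ⟨List.nodup_singleton x, List.isChain_singleton x, ?_⟩
  cases κ with
  | bond => exact List.isChain_singleton x
  | site =>
    intro a ha
    rw [List.mem_singleton] at ha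
    subst ha
    exact h rfl

lemma adj_e0 (x : V (n + 2)) : LatAdj x (x + e0) := ⟨(0, true), by simp [stepVec, e0]⟩

lemma adj_e0' (x : V (n + 2)) : LatAdj (x - e0) x := by
  have := adj_e0 (x - e0)
  rwa [sub_add_cancel] at this

theorem glue {κ : Kind} {ω : El (n + 2) → Bool} {b' : ℝ} {Λ j R₁ R₂ : ℕ}
    {A A' z z' : V (n + 2)} (h1 : ω ∈ Road κ A z R₁) (h2 : ω ∈ Bz κ b' Λ j z z')
    (h3 : ω ∈ Road κ z' A' R₂) (hz : z' 0 = z 0 + 2 ^ j)
    (hA : κ = .site → ω s(A, A) = true) (hA' : κ = .site → ω s(A', A') = true)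
    {D : Set (V (n + 2))} (hD : D.Finite)
    (hDm : ∀ x : V (n + 2), A 0 ≤ x 0 → x 0 ≤ A' 0 → x ∈ Bx A (R₁ + R₂ + Λ * 2 ^ j + 4) → x ∈ D) :
    ∃ N N₀ : ℕ, N₀ ≤ N ∧ N ≤ N₀ + R₁ + R₂ + 4 ∧ 2 ^ j ≤ N₀ ∧ N₀ ≤ Λ * 2 ^ j ∧
      Real.exp (b' * N₀) ≤ Zc κ ω D A A' N := by
  classical
  obtain ⟨⟨r₁, hop₁, hhd₁, hlast₁, hU₁, hlen₁⟩, hb₁⟩ := h1
  obtain ⟨⟨r₂, hop₂, hhd₂, hlast₂, hU₂, hlen₂⟩, hb₂⟩ := h3
  obtain ⟨F, N₀, hF, hfam, hbtw, hN₀, hcard⟩ := h2
  have hzz : z 0 ≤ z' 0 := by
    rw [hz]; have : (0 : ℤ) < 2 ^ j := by positivity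
    omega
  -- heights of the members
  have hht : ∀ l ∈ F, ∀ x ∈ l, z 0 ≤ x 0 ∧ x 0 ≤ z' 0 := by
    intro l hl x hx
    rcases hbtw l hl x hx with rfl | rfl | ⟨g1, g2⟩
    · exact ⟨le_refl _, hzz⟩
    · exact ⟨hzz, le_refl _⟩
    · rw [min_eq_left hzz] at g1
      rw [max_eq_right hzz] at g2
      exact ⟨g1.le, g2.le⟩
  have hin₁ := hU₁ _ (List.mem_of_head? hhd₁)
  have hin₂ := hU₁ _ (List.mem_of_getLast? hlast₁)
  have hin₃ := hU₂ _ (List.mem_of_head? hhd₂)
  have hin₄ := hU₂ _ (List.mem_of_getLast? hlast₂)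
  have hAz : A 0 < z 0 := by
    have := hin₁.1; have := hin₁.2.1; omega
  have hzA' : z' 0 < A' 0 := by
    have := hin₃.1; have := hin₃.2.1; omega
  -- horizontal positions
  have hzB : ∀ i, |z i - A i| ≤ (R₁ : ℤ) + 1 := by
    intro i
    have g1 := mem_Bx.1 hin₂.2.2 i
    have g2 := e0_abs (n := n) i
    rw [Pi.sub_apply] at g1
    rw [abs_le] at g1 g2 ⊢
    constructor <;> linarith
  have hlB : ∀ l ∈ F, ∀ x ∈ l, ∀ i, |x i - z i| ≤ ((Λ * 2 ^ j : ℕ) : ℤ) := by
    intro l hl x hx i
    obtain ⟨hop, hlen, hhd, -, -⟩ := hfam l hl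
    exact mem_Bx.1 (chain_near hop.chain hhd (by omega) x hx) i
  obtain ⟨l₀, hl₀⟩ := hF
  have hz'mem : z' ∈ l₀ := List.mem_of_getLast? (hfam l₀ hl₀).2.2.2.1
  have hz'B : ∀ i, |z' i - z i| ≤ ((Λ * 2 ^ j : ℕ) : ℤ) := hlB l₀ hl₀ z' hz'mem
  have hA'B : ∀ i, |A' i - z' i| ≤ (R₂ : ℤ) + 1 := by
    intro i
    have g1 := mem_Bx.1 hin₄.2.2 i
    have g2 := e0_abs (n := n) i
    rw [Pi.sub_apply] at g1
    rw [abs_le] at g1 g2 ⊢
    constructor <;> linarith
  -- the map
  set f : List (V (n + 2)) → List (V (n + 2)) := fun l => [A] ++ (r₁ ++ (l ++ (r₂ ++ [A']))) with hf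
  set N : ℕ := r₁.length + N₀ + r₂.length + 2 with hN
  have hf_inj : Function.Injective f := by
    intro l l' h
    simp only [hf] at h
    have := List.append_cancel_left h
    have := List.append_cancel_left this
    exact List.append_cancel_right this
  have hmem : ∀ l ∈ F, f l ∈ Fam κ ω D A A' N := by
    intro l hl
    obtain ⟨hop, hlen, hhd, hlast, -⟩ := hfam l hl
    have q1 : OP κ ω (r₂ ++ [A']) := by
      refine op_append hop₂ (op_single hA') ?_ ?_
      · intro a ha b hb
        rw [List.mem_singleton] at hb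
        subst hb
        exact (hU₂ a ha).2.1
      · intro x hx y hy
        rw [hlast₂, Option.mem_some_iff] at hx
        simp only [List.head?_cons, Option.mem_some_iff] at hy
        subst hx; subst hy
        exact ⟨adj_e0' _, fun hk => (hb₂ hk).2⟩
    have q2 : OP κ ω (l ++ (r₂ ++ [A'])) := by
      refine op_append hop q1 ?_ ?_
      · intro a ha b hb
        have g1 := (hht l hl a ha).2
        rw [List.mem_append, List.mem_singleton] at hb
        rcases hb with hb | rfl
        · exact lt_of_le_of_lt g1 (hU₂ b hb).1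
        · exact lt_of_le_of_lt g1 hzA'
      · intro x hx y hy
        rw [hlast, Option.mem_some_iff] at hx
        rw [List.head?_append, hhd₂, Option.some_or, Option.mem_some_iff] at hy
        subst hx; subst hy
        exact ⟨adj_e0 _, fun hk => (hb₂ hk).1⟩
    have q3 : OP κ ω (r₁ ++ (l ++ (r₂ ++ [A']))) := by
      refine op_append hop₁ q2 ?_ ?_
      · intro a ha b hb
        have g1 := (hU₁ a ha).2.1
        rw [List.mem_append, List.mem_append, List.mem_singleton] at hb
        rcases hb with hb | hb | rfl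
        · exact lt_of_lt_of_le g1 (hht l hl b hb).1
        · have := (hU₂ b hb).1
          omega
        · omega
      · intro x hx y hy
        rw [hlast₁, Option.mem_some_iff] at hx
        rw [List.head?_append, hhd, Option.some_or, Option.mem_some_iff] at hy
        subst hx; subst hy
        exact ⟨adj_e0' _, fun hk => (hb₁ hk).2⟩
    have q4 : OP κ ω (f l) := by
      refine op_append (op_single hA) q3 ?_ ?_
      · intro a ha b hb
        rw [List.mem_singleton] at ha
        subst ha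
        rw [List.mem_append, List.mem_append, List.mem_append, List.mem_singleton] at hb
        rcases hb with hb | hb | hb | rfl
        · exact (hU₁ b hb).1
        · have := (hht l hl b hb).1
          omega
        · have := (hU₂ b hb).1
          omega
        · omega
      · intro x hx y hy
        simp only [List.getLast?_singleton, Option.mem_some_iff] at hx
        rw [List.head?_append, hhd₁, Option.some_or, Option.mem_some_iff] at hy
        subst hx; subst hy
        exact ⟨adj_e0 _, fun hk => (hb₁ hk).1⟩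
    refine ⟨q4, ?_, ?_, ?_, ?_⟩
    · simp only [hf, List.length_append, List.length_singleton, hlen, hN]
      omega
    · simp [hf]
    · have hfl : f l = ([A] ++ (r₁ ++ (l ++ r₂))) ++ [A'] := by simp [hf]
      rw [hfl, List.getLast?_concat]
    · intro x hx
      have hBx : ∀ i, |x i - A i| ≤ ((R₁ + R₂ + Λ * 2 ^ j + 4 : ℕ) : ℤ) ∧ A 0 ≤ x 0 ∧ x 0 ≤ A' 0 := by
        intro i
        have c1 := hzB i
        have c2 := hz'B i
        have c3 := hA'B i
        simp only [hf, List.mem_append, List.mem_singleton] at hx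
        rw [abs_le] at c1 c2 c3
        have hR1 : (0 : ℤ) ≤ R₁ := Int.natCast_nonneg _
        have hR2 : (0 : ℤ) ≤ R₂ := Int.natCast_nonneg _
        have hL : (0 : ℤ) ≤ ((Λ * 2 ^ j : ℕ) : ℤ) := Int.natCast_nonneg _
        have hcast : ((R₁ + R₂ + Λ * 2 ^ j + 4 : ℕ) : ℤ) = (R₁ : ℤ) + R₂ + ((Λ * 2 ^ j : ℕ) : ℤ) + 4 := by
          push_cast; ring
        rw [hcast]
        rcases hx with rfl | hx | hx | hx | rfl
        · refine ⟨?_, le_refl _, by omega⟩
          rw [sub_self, abs_zero]; omega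
        · obtain ⟨g1, g2, g3⟩ := hU₁ x hx
          have g4 := mem_Bx.1 g3 i
          rw [abs_le] at g4 ⊢
          refine ⟨⟨by omega, by omega⟩, g1.le, by omega⟩
        · obtain ⟨g1, g2⟩ := hht l hl x hx
          have g4 := hlB l hl x hx i
          rw [abs_le] at g4 ⊢
          refine ⟨⟨by omega, by omega⟩, by omega, by omega⟩
        · obtain ⟨g1, g2, g3⟩ := hU₂ x hx
          have g4 := mem_Bx.1 g3 i
          rw [abs_le] at g4 ⊢
          refine ⟨⟨by omega, by omega⟩, by omega, g2.le⟩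
        · rw [abs_le]
          refine ⟨⟨by omega, by omega⟩, by omega, le_refl _⟩
      exact hDm x (hBx 0).2.1 (hBx 0).2.2 (mem_Bx.2 fun i => (hBx i).1)
  refine ⟨N, N₀, by omega, by omega, ?_, hN₀, ?_⟩
  · -- the height difference
    obtain ⟨hop, hlen, hhd, hlast, -⟩ := hfam l₀ hl₀
    have g1 := mem_Bx.1 (chain_near hop.chain hhd (N := N₀) (by omega) z' hz'mem) 0
    rw [hz, add_sub_cancel_left, abs_of_nonneg (by positivity)] at g1
    exact_mod_cast g1
  · have hcard1 : (F.card : ℝ) ≤ Zc κ ω D A A' N := by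
      have : F.card ≤ (Fam κ ω D A A' N).ncard := by
        rw [← Finset.card_image_of_injective F hf_inj, ← Set.ncard_coe_finset]
        refine Set.ncard_le_ncard ?_ (fam_finite κ ω hD A A' N)
        intro l hl
        rw [Finset.coe_image] at hl
        obtain ⟨l', hl', rfl⟩ := hl
        exact hmem l' hl'
      exact_mod_cast this
    refine le_trans ?_ hcard1
    have hpos : (0 : ℝ) < F.card := by
      exact_mod_cast Finset.card_pos.2 ⟨l₀, hl₀⟩
    rw [← Real.le_log_iff_exp_le hpos]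
    exact hcard

end Pool.Agent.H94.BM
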