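import Pool.Agent.H17.QA.LemEDir

/-!
# BM: rich bridges give modules (package of MP_a352f3_pr, project QA), definitions

Slab direction: coordinate `0`. `Bz z z'`: rich bridge from `z` to `z'`. `Road v w R`: open
self-avoiding path from `v + e0` to `w - e0` strictly between the hyperplanes of `v` and `w`,
plus (bond) the two boundary edges.
-/

open MeasureTheory Filter Topology
open Pool.Agent.H17.IIC Pool.Agent.H41.QC Pool.Agent.H47.GM Pool.Agent.H17.QA

namespace Pool.Agent.H94.BM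

variable {n : ℕ}

/-- unit vector of the slab direction -/
def e0 : V (n + 2) := Pi.single 0 1

/-- elements below height `t` -/
def LeE (t : ℤ) : Set (El (n + 2)) := {e | ∀ x ∈ e, x 0 ≤ t}

/-- elements above height `t` -/
def GeE (t : ℤ) : Set (El (n + 2)) := {e | ∀ x ∈ e, t ≤ x 0}

/-- rich bridge from `z` to `z'` with at most `Λ 2^j` steps -/
def Bz (κ : Kind) (b' : ℝ) (Λ j : ℕ) (z z' : V (n + 2)) : Set (El (n + 2) → Bool) :=
  {ω | ∃ (F : Finset (List (V (n + 2)))) (N : ℕ), F.Nonempty ∧ IsFam κ ω F z z' N ∧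
    (∀ l ∈ F, Btw 0 z z' l) ∧ N ≤ Λ * 2 ^ j ∧ b' * N ≤ Real.log F.card}

/-- road from `v` to `w` -/
def Road (κ : Kind) (v w : V (n + 2)) (R : ℕ) : Set (El (n + 2) → Bool) :=
  {ω | Rw κ ω {x | v 0 < x 0 ∧ x 0 < w 0 ∧ x ∈ Bx v R} (v + e0) (w - e0) R ∧
    (κ = .bond → ω s(v, v + e0) = true ∧ ω s(w - e0, w) = true)}

/-- end points of class `q` (displacements at precision `2^(j-h)`) with height difference `2^j` -/
def InCl (j h : ℕ) (q z z' : V (n + 2)) : Prop :=
  z' 0 = z 0 + 2 ^ j ∧ ∀ i, (z' i - z i) / 2 ^ (j - h) = q i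

/-- classes of displacements -/
noncomputable def Qs (n Λ h : ℕ) : Finset (V (n + 2)) :=
  (Bx (0 : V (n + 2)) (Λ * 2 ^ h)).filter fun q => q 0 = 2 ^ h

open Classical in
/-- pairs (start, end) of class `q` with start in the box of side `2^(j-h)` at `c` -/
noncomputable def Prs (Λ j h : ℕ) (q c : V (n + 2)) : Finset (V (n + 2) × V (n + 2)) :=
  ((box c (2 ^ (j - h))) ×ˢ (Bx c (2 ^ (j - h) + Λ * 2 ^ j))).filter fun s => InCl j h q s.1 s.2

/-- rich bridge of class `q` with start in the box of side `2^(j-h)` at `c` -/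
def Bcl (κ : Kind) (b' : ℝ) (Λ j h : ℕ) (q c : V (n + 2)) : Set (El (n + 2) → Bool) :=
  ⋃ s ∈ Prs Λ j h q c, Bz κ b' Λ j s.1 s.2

end Pool.Agent.H94.BM
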