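import Pool.Agent.H17.QA.Defs

/-!
# BM module LineProb: the regularity event of a line

Union bound (`RS.prob`) and Markov (`RS.dom_int`, `RS.lam_le`): if all `reg` hold and `∑ lam > M` then `∑ dom ≥ M + 1`.
-/

open MeasureTheory Filter Topology
open Pool.Agent.H17.IIC Pool.Agent.H41.QC Pool.Agent.H47.GM Pool.Agent.H17.QA

namespace Pool.Agent.H94.BM

variable {n : ℕ}

/-- union bound over a list -/
lemma lineProb_union {κ : Kind} {p : unitInterval} (RS : RoadSys κ (n + 2) p)
    (w : List (V (n + 2) × ℕ)) :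
    (prodBern (El (n + 2)) p).real {ω | ∃ q ∈ w, ω ∉ RS.reg q.1 q.2} ≤
      RS.C * (w.map fun q => Real.exp (-RS.c * q.2)).sum := by
  induction w with
  | nil => simp
  | cons a t ih =>
    have hset : {ω : El (n + 2) → Bool | ∃ q ∈ a :: t, ω ∉ RS.reg q.1 q.2} =
        (RS.reg a.1 a.2)ᶜ ∪ {ω | ∃ q ∈ t, ω ∉ RS.reg q.1 q.2} := by
      ext ω
      simp
    rw [hset, List.map_cons, List.sum_cons, mul_add]
    exact (measureReal_union_le _ _).trans (add_le_add (RS.prob a.1 a.2) ih)

lemma lineProb_meas {κ : Kind} {p : unitInterval} (RS : RoadSys κ (n + 2) p)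
    (w : List (V (n + 2) × ℕ)) : Measurable fun ω => (w.map fun q => RS.dom q.1 ω).sum := by
  induction w with
  | nil => simp
  | cons a t ih =>
    simp only [List.map_cons, List.sum_cons]
    exact (RS.dom_meas a.1).add ih

lemma lineProb_int {κ : Kind} {p : unitInterval} (RS : RoadSys κ (n + 2) p)
    (w : List (V (n + 2) × ℕ)) :
    ∫⁻ ω, (w.map fun q => RS.dom q.1 ω).sum ∂(prodBern (El (n + 2)) p) ≤
      ENNReal.ofReal (RS.C * w.length) := by
  induction w with
  | nil => simp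
  | cons a t ih =>
    simp only [List.map_cons, List.sum_cons, List.length_cons]
    rw [lintegral_add_left (RS.dom_meas a.1)]
    refine (add_le_add (RS.dom_int a.1) ih).trans ?_
    rw [← ENNReal.ofReal_add RS.hC.le (mul_nonneg RS.hC.le (Nat.cast_nonneg _))]
    apply ENNReal.ofReal_le_ofReal
    push_cast
    linarith

lemma lineProb_lam {κ : Kind} {p : unitInterval} (RS : RoadSys κ (n + 2) p)
    (w : List (V (n + 2) × ℕ)) (ω : El (n + 2) → Bool) (h : ∀ q ∈ w, ω ∈ RS.reg q.1 q.2) :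
    (((w.map fun q => RS.lam q.1 q.2 ω).sum : ℕ) : ENNReal) ≤
      (w.map fun q => RS.dom q.1 ω).sum := by
  induction w with
  | nil => simp
  | cons a t ih =>
    simp only [List.map_cons, List.sum_cons]
    rw [Nat.cast_add]
    exact add_le_add (RS.lam_le _ _ _ (h a (by simp))) (ih fun q hq => h q (by simp [hq]))

/-- the regularity event of a line -/
theorem line_prob {κ : Kind} {p : unitInterval} (RS : RoadSys κ (n + 2) p)
    (w : List (V (n + 2) × ℕ)) (M : ℕ) :
    1 - RS.C * (w.map fun q => Real.exp (-RS.c * q.2)).sum - RS.C * w.length / (M + 1) ≤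
      (prodBern (El (n + 2)) p).real {ω | (∀ q ∈ w, ω ∈ RS.reg q.1 q.2) ∧
        (w.map fun q => RS.lam q.1 q.2 ω).sum ≤ M} := by
  set G : Set (El (n + 2) → Bool) := {ω | (∀ q ∈ w, ω ∈ RS.reg q.1 q.2) ∧
        (w.map fun q => RS.lam q.1 q.2 ω).sum ≤ M} with hG
  set B₁ : Set (El (n + 2) → Bool) := {ω | ∃ q ∈ w, ω ∉ RS.reg q.1 q.2} with hB₁
  set B₂ : Set (El (n + 2) → Bool) :=
    {ω | ((M + 1 : ℕ) : ENNReal) ≤ (w.map fun q => RS.dom q.1 ω).sum} with hB₂
  have hcov : (Set.univ : Set (El (n + 2) → Bool)) ⊆ G ∪ (B₁ ∪ B₂) := by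
    intro ω _
    by_cases h1 : ω ∈ B₁
    · exact Or.inr (Or.inl h1)
    · have h1' : ∀ q ∈ w, ω ∈ RS.reg q.1 q.2 := by
        intro q hq
        by_contra hc
        exact h1 ⟨q, hq, hc⟩
      by_cases h2 : (w.map fun q => RS.lam q.1 q.2 ω).sum ≤ M
      · exact Or.inl ⟨h1', h2⟩
      · refine Or.inr (Or.inr ?_)
        have h3 : M + 1 ≤ (w.map fun q => RS.lam q.1 q.2 ω).sum := by omega
        have h4 : ((M + 1 : ℕ) : ENNReal) ≤
            (((w.map fun q => RS.lam q.1 q.2 ω).sum : ℕ) : ENNReal) := by exact_mod_cast h3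
        exact h4.trans (lineProb_lam RS w ω h1')
  have hB₂p : (prodBern (El (n + 2)) p).real B₂ ≤ RS.C * w.length / (M + 1) := by
    have hne : ((M + 1 : ℕ) : ENNReal) ≠ 0 := by simp
    have hne2 : ((M + 1 : ℕ) : ENNReal) ≠ ⊤ := ENNReal.natCast_ne_top _
    have h := meas_ge_le_lintegral_div (μ := prodBern (El (n + 2)) p)
      (lineProb_meas RS w).aemeasurable hne hne2
    have h2 : (prodBern (El (n + 2)) p) B₂ ≤
        ENNReal.ofReal (RS.C * w.length) / ((M + 1 : ℕ) : ENNReal) :=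
      h.trans (ENNReal.div_le_div_right (lineProb_int RS w) _)
    have h3 : ENNReal.ofReal (RS.C * w.length) / ((M + 1 : ℕ) : ENNReal) =
        ENNReal.ofReal (RS.C * w.length / (M + 1)) := by
      rw [ENNReal.ofReal_div_of_pos (by positivity)]
      congr 1
      rw [← ENNReal.ofReal_natCast]
      push_cast
      rfl
    rw [h3] at h2
    rw [Measure.real]
    refine (ENNReal.toReal_mono ENNReal.ofReal_ne_top h2).trans ?_
    rw [ENNReal.toReal_ofReal]
    have := RS.hC
    positivity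
  have h1 : (1 : ℝ) ≤ (prodBern (El (n + 2)) p).real (G ∪ (B₁ ∪ B₂)) := by
    have := measureReal_mono (μ := prodBern (El (n + 2)) p) hcov
    simpa using this
  have h2 := measureReal_union_le (μ := prodBern (El (n + 2)) p) G (B₁ ∪ B₂)
  have h3 := measureReal_union_le (μ := prodBern (El (n + 2)) p) B₁ B₂
  have h4 := lineProb_union RS w
  linarith

end Pool.Agent.H94.BM
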