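import Pool.Agent.H94.BM.Defs

/-!
# BM module OnLem: dependence of bridges and roads

A path of `Bz` has at most `Λ 2^j` steps, so it stays in `Bx z (Λ 2^j)`, and all its vertices have heights in
`[z 0, z' 0]` (`Btw`); `Opn` only reads elements whose vertices lie on the path. In `Road` every element read
has a vertex of the path, which is strictly between.
-/

open MeasureTheory Filter Topology
open Pool.Agent.H17.IIC Pool.Agent.H41.QC Pool.Agent.H47.GM Pool.Agent.H17.QA

namespace Pool.Agent.H94.BM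

variable {n d : ℕ}

/-- openness only reads elements with both vertices in the list -/
lemma opn_congr {κ : Kind} {ω ω' : El d → Bool} {l : List (V d)}
    (h : ∀ a ∈ l, ∀ b ∈ l, ω s(a, b) = ω' s(a, b)) : Opn κ ω l ↔ Opn κ ω' l := by
  have key : ∀ (ω ω' : El d → Bool), (∀ a ∈ l, ∀ b ∈ l, ω s(a, b) = ω' s(a, b)) →
      Opn κ ω l → Opn κ ω' l := by
    intro ω ω' h h1
    cases κ with
    | bond =>
      show l.IsChain (fun a b => ω' s(a, b) = true)
      have h1' : l.IsChain (fun a b => ω s(a, b) = true) := h1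
      rw [List.isChain_iff_getElem] at h1' ⊢
      intro i hi
      rw [← h _ (List.getElem_mem _) _ (List.getElem_mem _)]
      exact h1' i hi
    | site =>
      intro a ha
      rw [← h a ha a ha]
      exact h1 a ha
  exact ⟨key ω ω' h, key ω' ω (fun a ha b hb => (h a ha b hb).symm)⟩

/-- vertices of a lattice path are near its start -/
lemma chain_near {l : List (V d)} (hl : l.IsChain LatAdj) {x : V d} (hx : l.head? = some x)
    {N : ℕ} (hN : l.length ≤ N + 1) : ∀ v ∈ l, v ∈ Bx x N := by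
  induction l generalizing x N with
  | nil => simp at hx
  | cons a t ih =>
    have hax : a = x := by simpa using hx
    subst hax
    intro v hv
    rw [List.mem_cons] at hv
    rcases hv with rfl | hv
    · rw [mem_Bx]; intro i; simp
    · cases t with
      | nil => simp at hv
      | cons b t =>
        rw [List.isChain_cons_cons] at hl
        have hN' : (b :: t).length ≤ (N - 1) + 1 := by
          simp only [List.length_cons] at hN ⊢
          omega
        have h1 := ih hl.2 (x := b) (by simp) hN' v hv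
        rw [mem_Bx] at h1 ⊢
        intro i
        have h2 := h1 i
        have h3 := LatAdj.abs_le hl.1 i
        have h4 : 1 ≤ N := by
          simp only [List.length_cons] at hN
          omega
        have h5 : ((N - 1 : ℕ) : ℤ) = (N : ℤ) - 1 := by omega
        rw [h5] at h2
        rw [abs_le] at h2 h3 ⊢
        constructor <;> omega

lemma inE_eq (A : Finset (V d)) : InE (A : Set (V d)) = ((A.sym2 : Finset (El d)) : Set (El d)) := by
  ext e
  rw [Finset.mem_coe, Finset.mem_sym2_iff]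
  rfl

lemma inE_meas {A : Finset (V d)} {S : Set (El d → Bool)} (h : On (InE (A : Set (V d))) S) :
    MeasurableSet S := by
  rw [inE_eq] at h
  exact On.measurableSet h

lemma inE_finite (A : Finset (V d)) : (InE (A : Set (V d))).Finite := by
  rw [inE_eq]
  exact Finset.finite_toSet _

lemma op_congr {κ : Kind} {ω ω' : El d → Bool} {l : List (V d)}
    (h : ∀ a ∈ l, ∀ b ∈ l, ω s(a, b) = ω' s(a, b)) : OP κ ω l ↔ OP κ ω' l :=
  ⟨fun ⟨h1, h2, h3⟩ => ⟨h1, h2, (opn_congr h).1 h3⟩, fun ⟨h1, h2, h3⟩ => ⟨h1, h2, (opn_congr h).2 h3⟩⟩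

theorem bz_on (κ : Kind) (b' : ℝ) (Λ j : ℕ) (z z' : V (n + 2)) (h : z 0 ≤ z' 0) :
    On {e | ∀ x ∈ e, x ∈ Bx z (Λ * 2 ^ j) ∧ z 0 ≤ x 0 ∧ x 0 ≤ z' 0} (Bz κ b' Λ j z z') := by
  have key : ∀ ω ω' : El (n + 2) → Bool,
      (∀ e ∈ {e : El (n + 2) | ∀ x ∈ e, x ∈ Bx z (Λ * 2 ^ j) ∧ z 0 ≤ x 0 ∧ x 0 ≤ z' 0}, ω e = ω' e) →
      ω ∈ Bz κ b' Λ j z z' → ω' ∈ Bz κ b' Λ j z z' := by
    rintro ω ω' hω ⟨F, N, hF, hfam, hb, hN, hc⟩
    refine ⟨F, N, hF, ?_, hb, hN, hc⟩
    intro l hl
    obtain ⟨hop, hlen, hhd, hlast, hU⟩ := hfam l hl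
    refine ⟨(op_congr ?_).1 hop, hlen, hhd, hlast, hU⟩
    have hloc : ∀ x ∈ l, x ∈ Bx z (Λ * 2 ^ j) ∧ z 0 ≤ x 0 ∧ x 0 ≤ z' 0 := by
      intro x hx
      refine ⟨chain_near hop.chain hhd (by omega) x hx, ?_⟩
      rcases hb l hl x hx with rfl | rfl | ⟨h1, h2⟩
      · exact ⟨le_refl _, h⟩
      · exact ⟨h, le_refl _⟩
      · rw [min_eq_left h] at h1
        rw [max_eq_right h] at h2
        exact ⟨h1.le, h2.le⟩
    intro a ha b hb'
    apply hω
    intro x hx
    rw [Sym2.mem_iff] at hx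
    rcases hx with rfl | rfl
    · exact hloc _ ha
    · exact hloc _ hb'
  intro ω ω' hω
  exact ⟨key ω ω' hω, key ω' ω (fun e he => (hω e he).symm)⟩

lemma e0_zero : (e0 : V (n + 2)) 0 = 1 := by simp [e0]

lemma e0_ne {i : Fin (n + 2)} (hi : i ≠ 0) : (e0 : V (n + 2)) i = 0 := by simp [e0, hi]

lemma e0_abs (i : Fin (n + 2)) : |(e0 : V (n + 2)) i| ≤ 1 := by
  by_cases hi : i = 0
  · subst hi; rw [e0_zero]; norm_num
  · rw [e0_ne hi]; norm_num

theorem road_on (κ : Kind) (v w : V (n + 2)) (R : ℕ) :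
    On {e | (∀ x ∈ e, x ∈ Bx v (R + 1) ∧ v 0 ≤ x 0 ∧ x 0 ≤ w 0) ∧ ∃ x ∈ e, v 0 < x 0 ∧ x 0 < w 0}
      (Road κ v w R) := by
  have key : ∀ ω ω' : El (n + 2) → Bool,
      (∀ e ∈ {e : El (n + 2) | (∀ x ∈ e, x ∈ Bx v (R + 1) ∧ v 0 ≤ x 0 ∧ x 0 ≤ w 0) ∧
        ∃ x ∈ e, v 0 < x 0 ∧ x 0 < w 0}, ω e = ω' e) →
      ω ∈ Road κ v w R → ω' ∈ Road κ v w R := by
    rintro ω ω' hω ⟨⟨l, hop, hhd, hlast, hU, hlen⟩, hb⟩
    have hmono : ∀ x ∈ Bx v R, x ∈ Bx v (R + 1) := by
      intro x hx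
      rw [mem_Bx] at hx ⊢
      intro i
      have := hx i
      push_cast
      linarith
    have hin : v + e0 ∈ l := List.mem_of_head? hhd
    have hlin : w - e0 ∈ l := List.mem_of_getLast? hlast
    obtain ⟨h1, h2, h3⟩ := hU _ hin
    obtain ⟨h4, h5, h6⟩ := hU _ hlin
    refine ⟨⟨l, (op_congr ?_).1 hop, hhd, hlast, hU, hlen⟩, ?_⟩
    · intro a ha b hb'
      apply hω
      refine ⟨?_, a, by simp, (hU a ha).1, (hU a ha).2.1⟩
      intro x hx
      rw [Sym2.mem_iff] at hx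
      rcases hx with rfl | rfl
      · exact ⟨hmono _ (hU _ ha).2.2, (hU _ ha).1.le, (hU _ ha).2.1.le⟩
      · exact ⟨hmono _ (hU _ hb').2.2, (hU _ hb').1.le, (hU _ hb').2.1.le⟩
    · intro hk
      obtain ⟨hb1, hb2⟩ := hb hk
      constructor
      · rw [← hω]
        · exact hb1
        · refine ⟨?_, v + e0, by simp, h1, h2⟩
          intro x hx
          rw [Sym2.mem_iff] at hx
          rcases hx with rfl | rfl
          · refine ⟨?_, le_refl _, by omega⟩
            rw [mem_Bx]; intro i; simp; positivity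
          · exact ⟨hmono _ h3, h1.le, h2.le⟩
      · rw [← hω]
        · exact hb2
        · refine ⟨?_, w - e0, by simp, h4, h5⟩
          intro x hx
          rw [Sym2.mem_iff] at hx
          rcases hx with rfl | rfl
          · exact ⟨hmono _ h6, h4.le, h5.le⟩
          · refine ⟨?_, by omega, le_refl _⟩
            rw [mem_Bx] at h6 ⊢
            intro i
            have h7 := h6 i
            have h8 := e0_abs (n := n) i
            rw [Pi.sub_apply] at h7
            rw [abs_le] at h7 h8 ⊢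
            push_cast
            constructor <;> linarith
  intro ω ω' hω
  exact ⟨key ω ω' hω, key ω' ω (fun e he => (hω e he).symm)⟩

lemma bz_meas (κ : Kind) (b' : ℝ) (Λ j : ℕ) (z z' : V (n + 2)) (h : z 0 ≤ z' 0) :
    MeasurableSet (Bz κ b' Λ j z z') := by
  refine inE_meas (A := Bx z (Λ * 2 ^ j)) ((bz_on κ b' Λ j z z' h).mono ?_)
  intro e he x hx
  exact (he x hx).1

lemma road_meas (κ : Kind) (v w : V (n + 2)) (R : ℕ) : MeasurableSet (Road κ v w R) := by
  refine inE_meas (A := Bx v (R + 1)) ((road_on κ v w R).mono ?_)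
  intro e he x hx
  exact (he.1 x hx).1

lemma bz_le (κ : Kind) (b' : ℝ) (Λ j : ℕ) (z z' : V (n + 2)) (h : z 0 ≤ z' 0) :
    On (LeE (z' 0)) (Bz κ b' Λ j z z') :=
  (bz_on κ b' Λ j z z' h).mono fun _ he x hx => (he x hx).2.2

lemma bz_ge (κ : Kind) (b' : ℝ) (Λ j : ℕ) (z z' : V (n + 2)) (h : z 0 ≤ z' 0) :
    On (GeE (z 0)) (Bz κ b' Λ j z z') :=
  (bz_on κ b' Λ j z z' h).mono fun _ he x hx => (he x hx).2.1

lemma road_above (κ : Kind) (v w : V (n + 2)) (R : ℕ) : On (LeE (v 0))ᶜ (Road κ v w R) := by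
  refine (road_on κ v w R).mono ?_
  rintro e ⟨-, x, hx, h1, -⟩ h2
  have := h2 x hx
  omega

lemma road_below (κ : Kind) (v w : V (n + 2)) (R : ℕ) : On (GeE (w 0))ᶜ (Road κ v w R) := by
  refine (road_on κ v w R).mono ?_
  rintro e ⟨-, x, hx, -, h1⟩ h2
  have := h2 x hx
  omega

lemma road_ge (κ : Kind) (v w : V (n + 2)) (R : ℕ) : On (GeE (v 0)) (Road κ v w R) :=
  (road_on κ v w R).mono fun _ he x hx => (he.1 x hx).2.1

/-- roads do not read the element `s(v, v)` -/
lemma road_diag (κ : Kind) (v w x : V (n + 2)) (R : ℕ) (hx : x 0 ≤ v 0 ∨ w 0 ≤ x 0) :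
    On {s(x, x)}ᶜ (Road κ v w R) := by
  refine (road_on κ v w R).mono ?_
  rintro e ⟨-, y, hy, h1, h2⟩ h3
  rw [Set.mem_singleton_iff] at h3
  subst h3
  rw [Sym2.mem_iff] at hy
  have : y = x := by rcases hy with rfl | rfl <;> rfl
  subst this
  omega

end Pool.Agent.H94.BM
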