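import Pool.Agent.H94.BM.Line
import Pool.Agent.H94.BM.LineProb
import Pool.Agent.H94.BM.OnLem
import Pool.Agent.H94.BM.Splice
import Pool.Agent.H94.BM.Walks

/-!
# BM module RoadP: roads have positive probability

Take the line of centres `l` of `Line` with `s = r2 + 1`, radii `ρ x = max r2 (hd v w x / 16)`; then
`Bx x (ρ x)` lies strictly between the hyperplanes (`ρ x < hd v w x`), the first and the last radius are `r2`, radii of neighbours differ by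
at most one. `X`: all `reg x (ρ x)` hold and `∑ lam x (ρ x) ≤ M' = ⌈4 C (length)⌉`. `P Xᶜ ≤ ∑ C exp (-c ρ x) + 1/4`
(Markov for `∑ dom x`, `lam_le`) and `exp (-c ρ) ≤ exp (-c r2 / 2) exp (-(c/2) (hd/16))`, so `P X ≥ 1/2` for `r2` large
(`K` of `Line` with `c/2`). `H`: the elements inside `Bx (v + (r2+1) e0) r2`, inside `Bx (w - (r2+1) e0) r2`, and
`s(v, v + e0)`, `s(w - e0, w)`. `G = {ω | ∃ ω' ∈ X, ω' = ω off H}` contains `X` and depends on `Hᶜ` (and on finitely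
many elements); `P (all of H open) = p^|H|`, `|H|` bounded. On `G ∩ {H open}`: `ω' ≤ ω`, the road of `ω'` from
hub to hub (`RS.path`, `rw_mono`), extended inside the fully open boxes (`rw_box`, `v + e0 ∈ Bx (v + (r2+1) e0) r2`),
`rw_trans`.
-/

open MeasureTheory Filter Topology
open Pool.Agent.H17.IIC Pool.Agent.H41.QC Pool.Agent.H47.GM Pool.Agent.H17.QA

namespace Pool.Agent.H94.BM

variable {n : ℕ}

lemma card_Bx_eq (c : V (n + 2)) (r : ℕ) : (Bx c r).card = (2 * r + 1) ^ (n + 2) := by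
  unfold Bx
  rw [Fintype.card_piFinset]
  have : ∀ i, (Finset.Icc (c i - r) (c i + r)).card = 2 * r + 1 := by
    intro i
    rw [Int.card_Icc]
    omega
  rw [Finset.prod_congr rfl fun i _ => this i, Finset.prod_const, Finset.card_univ,
    Fintype.card_fin]

/-- the radius at a centre -/
def rdm (r2 : ℕ) (v w x : V (n + 2)) : ℕ := max r2 (hd v w x / 16)

/-- the list of pairs (centre, radius) -/
def rdl (r2 : ℕ) (v w : V (n + 2)) (l : List (V (n + 2))) : List (V (n + 2) × ℕ) :=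
  l.map fun x => (x, rdm r2 v w x)

lemma rdm_ge (r2 : ℕ) (v w x : V (n + 2)) : r2 ≤ rdm r2 v w x := le_max_left _ _

/-- boxes of the road lie strictly between -/
lemma rdm_lt {r2 : ℕ} {v w x : V (n + 2)} (h1 : ((r2 + 1 : ℕ) : ℤ) ≤ x 0 - v 0)
    (h2 : ((r2 + 1 : ℕ) : ℤ) ≤ w 0 - x 0) :
    (rdm r2 v w x : ℤ) < x 0 - v 0 ∧ (rdm r2 v w x : ℤ) < w 0 - x 0 := by
  unfold rdm hd
  push_cast at h1 h2
  have h3 : ((min (x 0 - v 0) (w 0 - x 0)).toNat : ℤ) = min (x 0 - v 0) (w 0 - x 0) :=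
    Int.toNat_of_nonneg (by rw [le_min_iff]; constructor <;> omega)
  set m := (min (x 0 - v 0) (w 0 - x 0)).toNat with hm
  have h4 : (m : ℤ) ≤ x 0 - v 0 := by rw [h3]; exact min_le_left _ _
  have h5 : (m : ℤ) ≤ w 0 - x 0 := by rw [h3]; exact min_le_right _ _
  have h6 : ((r2 : ℤ) + 1) ≤ m := by rw [h3, le_min_iff]; exact ⟨h1, h2⟩
  have h7 : max r2 (m / 16) < m := by
    rw [max_lt_iff]
    omega
  constructor <;> omega

/-- the radii of the two ends -/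
lemma rdm_end {r2 : ℕ} (hr : 1 ≤ r2) {v w x : V (n + 2)}
    (h : x 0 - v 0 ≤ ((r2 + 1 : ℕ) : ℤ) ∨ w 0 - x 0 ≤ ((r2 + 1 : ℕ) : ℤ)) : rdm r2 v w x = r2 := by
  unfold rdm hd
  push_cast at h
  have h3 : (min (x 0 - v 0) (w 0 - x 0)).toNat ≤ r2 + 1 := by
    have : min (x 0 - v 0) (w 0 - x 0) ≤ (r2 : ℤ) + 1 := by
      rcases h with h | h
      · exact (min_le_left _ _).trans h
      · exact (min_le_right _ _).trans h
    omega
  set m := (min (x 0 - v 0) (w 0 - x 0)).toNat with hm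
  rw [max_eq_left]
  omega

/-- neighbouring radii -/
lemma rdm_near {r2 : ℕ} (hr : 1 ≤ r2) {v w x y : V (n + 2)} (h : |x 0 - y 0| ≤ 1) :
    rdm r2 v w x ≤ 2 * rdm r2 v w y := by
  unfold rdm hd
  rw [abs_le] at h
  have h3 : (min (x 0 - v 0) (w 0 - x 0)).toNat ≤ (min (y 0 - v 0) (w 0 - y 0)).toNat + 1 := by
    have : min (x 0 - v 0) (w 0 - x 0) ≤ min (y 0 - v 0) (w 0 - y 0) + 1 := by
      rw [← min_add_add_right]
      exact min_le_min (by omega) (by omega)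
    omega
  set m := (min (x 0 - v 0) (w 0 - x 0)).toNat with hm
  set m' := (min (y 0 - v 0) (w 0 - y 0)).toNat with hm'
  rcases le_total r2 (m / 16) with h4 | h4
  · rw [max_eq_right h4]
    have := le_max_right r2 (m' / 16)
    have := le_max_left r2 (m' / 16)
    omega
  · rw [max_eq_left h4]
    have := le_max_left r2 (m' / 16)
    omega

lemma rdl_chain {r2 : ℕ} (hr : 1 ≤ r2) (v w : V (n + 2)) {l : List (V (n + 2))}
    (hl : l.IsChain (fun a b => a = b ∨ LatAdj a b)) :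
    (rdl r2 v w l).IsChain (fun a b => (a.1 = b.1 ∨ LatAdj a.1 b.1) ∧ a.2 ≤ 2 * b.2 ∧
      b.2 ≤ 2 * a.2) := by
  unfold rdl
  rw [List.isChain_map]
  refine hl.imp ?_
  intro a b hab
  have h1 : |a 0 - b 0| ≤ 1 := by
    rcases hab with rfl | hab
    · simp
    · exact LatAdj.abs_le hab 0
  exact ⟨hab, rdm_near hr h1, rdm_near hr (by rw [abs_sub_comm]; exact h1)⟩

/-- the event of `line_prob` depends on finitely many elements -/
lemma road_event_on {κ : Kind} {p : unitInterval} (RS : RoadSys κ (n + 2) p)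
    (w : List (V (n + 2) × ℕ)) (M : ℕ) :
    ∃ T : Finset (El (n + 2)), On (T : Set (El (n + 2))) {ω | (∀ q ∈ w, ω ∈ RS.reg q.1 q.2) ∧
      (w.map fun q => RS.lam q.1 q.2 ω).sum ≤ M} := by
  classical
  refine ⟨w.toFinset.biUnion fun q => (Bx q.1 q.2).sym2, ?_⟩
  have key : ∀ ω ω' : El (n + 2) → Bool,
      (∀ e ∈ ((w.toFinset.biUnion fun q => (Bx q.1 q.2).sym2 : Finset (El (n + 2))) :
        Set (El (n + 2))), ω e = ω' e) →
      ω ∈ {ω | (∀ q ∈ w, ω ∈ RS.reg q.1 q.2) ∧ (w.map fun q => RS.lam q.1 q.2 ω).sum ≤ M} →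
      ω' ∈ {ω | (∀ q ∈ w, ω ∈ RS.reg q.1 q.2) ∧ (w.map fun q => RS.lam q.1 q.2 ω).sum ≤ M} := by
    rintro ω ω' h ⟨h1, h2⟩
    have h3 : ∀ q ∈ w, ∀ e ∈ InE (Bx q.1 q.2 : Set (V (n + 2))), ω e = ω' e := by
      intro q hq e he
      apply h
      rw [inE_eq] at he
      rw [Finset.mem_coe, Finset.mem_biUnion]
      exact ⟨q, List.mem_toFinset.2 hq, he⟩
    refine ⟨fun q hq => (RS.reg_on q.1 q.2 ω ω' (h3 q hq)).1 (h1 q hq), ?_⟩
    have h4 : (w.map fun q => RS.lam q.1 q.2 ω') = (w.map fun q => RS.lam q.1 q.2 ω) := by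
      apply List.map_congr_left
      intro q hq
      exact (RS.lam_on q.1 q.2 ω ω' (h1 q hq) (h3 q hq)).symm
    rw [h4]
    exact h2
  intro ω ω' h
  exact ⟨key ω ω' h, key ω' ω (fun e he => (h e he).symm)⟩

/-- the elements to be opened -/
noncomputable def rdH (r2 : ℕ) (v w : V (n + 2)) : Finset (El (n + 2)) :=
  open Classical in ((Bx (v + ((r2 + 1 : ℕ) : ℤ) • e0) r2).sym2 ∪
    (Bx (w - ((r2 + 1 : ℕ) : ℤ) • e0) r2).sym2) ∪ {s(v, v + e0), s(w - e0, w)}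

lemma rdH_card (r2 : ℕ) (v w : V (n + 2)) :
    (rdH r2 v w).card ≤ 2 * ((2 * r2 + 1) ^ (n + 2) + 1) ^ 2 + 2 := by
  classical
  have hb : ∀ c : V (n + 2), ((Bx c r2).sym2).card ≤ ((2 * r2 + 1) ^ (n + 2) + 1) ^ 2 := by
    intro c
    rw [Finset.card_sym2, card_Bx_eq]
    calc ((2 * r2 + 1) ^ (n + 2) + 1).choose 2 ≤ ((2 * r2 + 1) ^ (n + 2) + 1) ^ 2 :=
          Nat.choose_le_pow _ _
      _ = _ := rfl
  unfold rdH
  refine (Finset.card_union_le _ _).trans ?_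
  have h1 := Finset.card_union_le ((Bx (v + ((r2 + 1 : ℕ) : ℤ) • e0) r2).sym2)
    ((Bx (w - ((r2 + 1 : ℕ) : ℤ) • e0) r2).sym2)
  have h2 := hb (v + ((r2 + 1 : ℕ) : ℤ) • e0)
  have h3 := hb (w - ((r2 + 1 : ℕ) : ℤ) • e0)
  have h4 : ({s(v, v + e0), s(w - e0, w)} : Finset (El (n + 2))).card ≤ 2 := Finset.card_le_two
  omega

lemma smul_e0 (k : ℤ) (i : Fin (n + 2)) : |(k • (e0 : V (n + 2))) i| ≤ |k| := by
  rw [Pi.smul_apply, smul_eq_mul, abs_mul]
  have := e0_abs (n := n) i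
  have h := abs_nonneg k
  nlinarith

lemma smul_e0_zero (k : ℤ) : (k • (e0 : V (n + 2))) 0 = k := by
  rw [Pi.smul_apply, smul_eq_mul, e0_zero, mul_one]

/-- deterministic part -/
theorem road_det {κ : Kind} {p : unitInterval} (RS : RoadSys κ (n + 2) p) {r2 M Λ' CR : ℕ}
    (hr : 1 ≤ r2) {v w : V (n + 2)} (hg : (4 * (r2 + 1 : ℕ) : ℤ) ≤ w 0 - v 0)
    {l : List (V (n + 2))} (hl1 : l.head? = some (v + ((r2 + 1 : ℕ) : ℤ) • e0))
    (hl2 : l.getLast? = some (w - ((r2 + 1 : ℕ) : ℤ) • e0))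
    (hl3 : l.IsChain (fun a b => a = b ∨ LatAdj a b))
    (hl4 : ∀ x ∈ l, ((r2 + 1 : ℕ) : ℤ) ≤ x 0 - v 0 ∧ ((r2 + 1 : ℕ) : ℤ) ≤ w 0 - x 0 ∧
      ∀ i, |x i - v i| ≤ (Λ' + 1) * (w 0 - v 0))
    (hM : M + 2 * (2 * r2 + 1) ^ (n + 2) ≤ CR * (w 0 - v 0).toNat) (hC : Λ' + 3 ≤ CR)
    {ω ω' : El (n + 2) → Bool}
    (hX : ω' ∈ {ω | (∀ q ∈ rdl r2 v w l, ω ∈ RS.reg q.1 q.2) ∧
        ((rdl r2 v w l).map fun q => RS.lam q.1 q.2 ω).sum ≤ M})
    (hH : ∀ e ∈ rdH r2 v w, ω e = true) (ho : ∀ e ∉ rdH r2 v w, ω' e = ω e) :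
    ω ∈ Road κ v w (CR * (w 0 - v 0).toNat) := by
  classical
  obtain ⟨hX1, hX2⟩ := hX
  set s : ℤ := ((r2 + 1 : ℕ) : ℤ) with hs
  have hsr : s = (r2 : ℤ) + 1 := by rw [hs]; push_cast; ring
  set g : ℤ := w 0 - v 0 with hgd
  have hg' : 4 * s ≤ g := hg
  have hgn : ((g.toNat : ℕ) : ℤ) = g := Int.toNat_of_nonneg (by omega)
  set R : ℕ := CR * g.toNat with hR
  have hRz : (R : ℤ) = CR * g := by rw [hR]; push_cast; rw [hgn]
  have hCz : ((Λ' : ℤ) + 3) ≤ CR := by exact_mod_cast hC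
  have hRg : ((Λ' : ℤ) + 3) * g ≤ R := by
    rw [hRz]
    exact mul_le_mul_of_nonneg_right hCz (by omega)
  have hle : ∀ e, ω' e = true → ω e = true := by
    intro e he
    by_cases h : e ∈ rdH r2 v w
    · exact hH e h
    · rw [← ho e h]; exact he
  set U : Set (V (n + 2)) := {x | v 0 < x 0 ∧ x 0 < w 0 ∧ x ∈ Bx v R} with hU
  -- boxes
  have hbox : ∀ x ∈ l, ∀ y ∈ Bx x (rdm r2 v w x), y ∈ U := by
    intro x hx y hy
    obtain ⟨h1, h2, h3⟩ := hl4 x hx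
    obtain ⟨h4, h5⟩ := rdm_lt h1 h2
    rw [mem_Bx] at hy
    have h6 := hy 0
    rw [abs_le] at h6
    refine ⟨by omega, by omega, ?_⟩
    rw [mem_Bx]
    intro i
    have h7 := hy i
    have h8 := h3 i
    have h9 : (rdm r2 v w x : ℤ) ≤ g := by omega
    have h10 : |y i - v i| ≤ |y i - x i| + |x i - v i| := abs_sub_le _ _ _
    have hgp : 0 ≤ g := by omega
    nlinarith
  have hfst : v + s • e0 ∈ l := List.mem_of_head? hl1
  have hlst : w - s • e0 ∈ l := List.mem_of_getLast? hl2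
  have hz1 : (v + s • e0 : V (n + 2)) 0 = v 0 + s := by rw [Pi.add_apply, smul_e0_zero]
  have hz2 : (w - s • e0 : V (n + 2)) 0 = w 0 - s := by rw [Pi.sub_apply, smul_e0_zero]
  have hr1 : rdm r2 v w (v + s • e0) = r2 := by
    apply rdm_end hr
    left; rw [hz1]; omega
  have hr2' : rdm r2 v w (w - s • e0) = r2 := by
    apply rdm_end hr
    right; rw [hz2]; omega
  have hb1 : ∀ y ∈ Bx (v + s • e0) r2, y ∈ U := by
    intro y hy
    exact hbox _ hfst y (by rw [hr1]; exact hy)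
  have hb2 : ∀ y ∈ Bx (w - s • e0) r2, y ∈ U := by
    intro y hy
    exact hbox _ hlst y (by rw [hr2']; exact hy)
  -- the middle part
  have hpath := RS.path ω' (rdl r2 v w l) (rdl_chain hr v w hl3) (by
      intro a ha
      refine ⟨?_, hX1 a ha⟩
      unfold rdl at ha
      rw [List.mem_map] at ha
      obtain ⟨x, -, rfl⟩ := ha
      exact hr.trans (rdm_ge r2 v w x))
    (v + s • e0, r2) (w - s • e0, r2)
    (by unfold rdl; rw [List.head?_map, hl1, Option.map_some, hr1])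
    (by unfold rdl; rw [List.getLast?_map, hl2, Option.map_some, hr2'])
  have hm1 : ((v + s • e0, r2) : V (n + 2) × ℕ) ∈ rdl r2 v w l := by
    unfold rdl
    rw [List.mem_map]
    exact ⟨_, hfst, by rw [hr1]⟩
  have hm2 : ((w - s • e0, r2) : V (n + 2) × ℕ) ∈ rdl r2 v w l := by
    unfold rdl
    rw [List.mem_map]
    exact ⟨_, hlst, by rw [hr2']⟩
  have hh1 := RS.hub_mem (v + s • e0) r2 ω' (hX1 _ hm1)
  have hh2 := RS.hub_mem (w - s • e0) r2 ω' (hX1 _ hm2)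
  have hmid : Rw κ ω U (RS.hub (v + s • e0) r2 ω') (RS.hub (w - s • e0) r2 ω') M := by
    refine rw_mono hle ?_ hX2 hpath
    rintro y ⟨q, hq, hy⟩
    unfold rdl at hq
    rw [List.mem_map] at hq
    obtain ⟨x, hx, rfl⟩ := hq
    exact hbox x hx y hy
  have hin1 : v + e0 ∈ Bx (v + s • e0) r2 := by
    rw [mem_Bx]
    intro i
    rw [Pi.add_apply, Pi.add_apply]
    have h1 : v i + (e0 : V (n + 2)) i - (v i + (s • (e0 : V (n + 2))) i) =
        ((1 - s) • (e0 : V (n + 2))) i := by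
      rw [Pi.smul_apply, Pi.smul_apply, smul_eq_mul, smul_eq_mul]; ring
    rw [h1]
    refine (smul_e0 _ _).trans ?_
    rw [abs_le]; constructor <;> omega
  have hin2 : w - e0 ∈ Bx (w - s • e0) r2 := by
    rw [mem_Bx]
    intro i
    rw [Pi.sub_apply, Pi.sub_apply]
    have h1 : w i - (e0 : V (n + 2)) i - (w i - (s • (e0 : V (n + 2))) i) =
        ((s - 1) • (e0 : V (n + 2))) i := by
      rw [Pi.smul_apply, Pi.smul_apply, smul_eq_mul, smul_eq_mul]; ring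
    rw [h1]
    refine (smul_e0 _ _).trans ?_
    rw [abs_le]; constructor <;> omega
  have ho1 : ∀ e ∈ InE (Bx (v + s • e0) r2 : Set (V (n + 2))), ω e = true := by
    intro e he
    apply hH
    rw [inE_eq, Finset.mem_coe] at he
    unfold rdH
    rw [Finset.mem_union, Finset.mem_union]
    exact Or.inl (Or.inl he)
  have ho2 : ∀ e ∈ InE (Bx (w - s • e0) r2 : Set (V (n + 2))), ω e = true := by
    intro e he
    apply hH
    rw [inE_eq, Finset.mem_coe] at he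
    unfold rdH
    rw [Finset.mem_union, Finset.mem_union]
    exact Or.inl (Or.inr he)
  have hA := rw_mono (κ := κ) (U' := U) (N' := (2 * r2 + 1) ^ (n + 2)) (fun _ h => h) (fun y hy => hb1 y hy)
    (by rw [card_Bx_eq]) (rw_box ho1 hin1 hh1)
  have hB := rw_mono (κ := κ) (U' := U) (N' := (2 * r2 + 1) ^ (n + 2)) (fun _ h => h) (fun y hy => hb2 y hy)
    (by rw [card_Bx_eq]) (rw_box ho2 hh2 hin2)
  refine ⟨rw_mono (fun _ h => h) (fun _ h => h) ?_ (rw_trans (rw_trans hA hmid) hB), ?_⟩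
  · omega
  · intro _
    constructor
    · apply hH
      unfold rdH
      rw [Finset.mem_union]
      right
      simp
    · apply hH
      unfold rdH
      rw [Finset.mem_union]
      right
      simp

theorem road_prob {κ : Kind} {p : unitInterval} (RS : RoadSys κ (n + 2) p) (hp : 0 < (p : ℝ))
    (Λ' : ℕ) :
    ∃ (c₃ : ℝ) (CR g₀ : ℕ), 0 < c₃ ∧ ∀ v w : V (n + 2), (g₀ : ℤ) ≤ w 0 - v 0 →
      (∀ i, |w i - v i| ≤ Λ' * (w 0 - v 0)) →
      c₃ ≤ (prodBern (El (n + 2)) p).real (Road κ v w (CR * (w 0 - v 0).toNat)) := by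
  classical
  have hc := RS.hc
  have hC := RS.hC
  obtain ⟨K, hK, hline⟩ := line_exists n Λ' (RS.c / 2) (by positivity)
  -- choice of `r2`
  obtain ⟨r2, hr2, hr2e⟩ : ∃ r2 : ℕ, 1 ≤ r2 ∧ RS.C * (Real.exp (-(RS.c / 2) * r2) * K) ≤ 1 / 4 := by
    have h1 : Tendsto (fun r : ℕ => RS.C * (Real.exp (-(RS.c / 2) * (r : ℝ)) * K)) atTop
        (𝓝 (RS.C * (0 * K))) := by
      refine Tendsto.const_mul _ (Tendsto.mul_const _ ?_)
      refine Real.tendsto_exp_atBot.comp ?_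
      exact (tendsto_natCast_atTop_atTop (R := ℝ)).const_mul_atTop_of_neg (by linarith)
    rw [zero_mul, mul_zero] at h1
    have h2 := h1.eventually (ge_mem_nhds (show (0 : ℝ) < 1 / 4 by norm_num))
    obtain ⟨r, hr⟩ := (h2.and (eventually_ge_atTop 1)).exists
    exact ⟨r, hr.2, hr.1⟩
  set Hc : ℕ := 2 * ((2 * r2 + 1) ^ (n + 2) + 1) ^ 2 + 2 with hHc
  set A : ℕ := (n + 1) * Λ' + 3 with hA
  set B : ℕ := ⌈4 * RS.C * (A : ℝ)⌉₊ with hB
  set CR : ℕ := Λ' + 3 + (B + 1) + 2 * (2 * r2 + 1) ^ (n + 2) with hCR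
  refine ⟨(p : ℝ) ^ Hc / 2, CR, 4 * (r2 + 1), by positivity, ?_⟩
  intro v w hg hw
  have hg' : (4 * (r2 + 1 : ℕ) : ℤ) ≤ w 0 - v 0 := by push_cast at hg ⊢; exact hg
  obtain ⟨l, hl1, hl2, hl3, hl4, hl5, hl6⟩ := hline (r2 + 1) (by omega) v w hg' hw
  set g : ℤ := w 0 - v 0 with hgd
  have hg1 : 1 ≤ g := by omega
  have hgn : ((g.toNat : ℕ) : ℤ) = g := Int.toNat_of_nonneg (by omega)
  have hgn1 : 1 ≤ g.toNat := by omega
  set M : ℕ := ⌈4 * RS.C * (l.length : ℝ)⌉₊ with hM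
  -- the probability
  have hlp := line_prob RS (rdl r2 v w l) M
  have hlen : (rdl r2 v w l).length = l.length := by unfold rdl; rw [List.length_map]
  have hsum : ((rdl r2 v w l).map fun q => Real.exp (-RS.c * q.2)).sum ≤
      Real.exp (-(RS.c / 2) * r2) * K := by
    unfold rdl
    rw [List.map_map]
    have h1 : ∀ x ∈ l, ((fun q : V (n + 2) × ℕ => Real.exp (-RS.c * q.2)) ∘
        fun x => (x, rdm r2 v w x)) x ≤
        Real.exp (-(RS.c / 2) * r2) * Real.exp (-(RS.c / 2) * ((hd v w x / 16 : ℕ) : ℝ)) := by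
      intro x _
      show Real.exp (-RS.c * (rdm r2 v w x : ℝ)) ≤ _
      rw [← Real.exp_add]
      apply Real.exp_le_exp.2
      have h2 : (r2 : ℝ) ≤ rdm r2 v w x := by exact_mod_cast rdm_ge r2 v w x
      have h3 : ((hd v w x / 16 : ℕ) : ℝ) ≤ rdm r2 v w x := by
        have : hd v w x / 16 ≤ rdm r2 v w x := le_max_right _ _
        exact_mod_cast this
      nlinarith
    refine (List.sum_le_sum h1).trans ?_
    rw [List.sum_map_mul_left]
    exact mul_le_mul_of_nonneg_left hl6 (Real.exp_pos _).le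
  have hMk : RS.C * ((rdl r2 v w l).length : ℝ) / ((M : ℝ) + 1) ≤ 1 / 4 := by
    rw [hlen, div_le_iff₀ (by positivity)]
    have := Nat.le_ceil (4 * RS.C * (l.length : ℝ))
    rw [← hM] at this
    linarith
  have hPX : 1 / 2 ≤ (prodBern (El (n + 2)) p).real {ω | (∀ q ∈ rdl r2 v w l, ω ∈ RS.reg q.1 q.2) ∧
        ((rdl r2 v w l).map fun q => RS.lam q.1 q.2 ω).sum ≤ M} := by
    have h1 : RS.C * ((rdl r2 v w l).map fun q => Real.exp (-RS.c * q.2)).sum ≤ 1 / 4 :=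
      (mul_le_mul_of_nonneg_left hsum hC.le).trans hr2e
    linarith
  obtain ⟨T, hT⟩ := road_event_on RS (rdl r2 v w l) M
  have hsp := splice p (rdH r2 v w) T _ hT
  have hMle : M + 2 * (2 * r2 + 1) ^ (n + 2) ≤ CR * g.toNat := by
    have h1 : M ≤ (B + 1) * g.toNat := by
      rw [hM]
      apply Nat.ceil_le.2
      have h2 : (l.length : ℝ) ≤ (A : ℝ) * (g.toNat : ℝ) := by
        have h3 : (l.length : ℤ) ≤ (A : ℤ) * ((g.toNat : ℕ) : ℤ) := by
          rw [hgn, hA]; push_cast; exact hl5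
        exact_mod_cast h3
      have h3 : 4 * RS.C * (A : ℝ) ≤ (B : ℝ) := Nat.le_ceil _
      have h4 : (0 : ℝ) ≤ (g.toNat : ℝ) := by positivity
      push_cast
      calc 4 * RS.C * (l.length : ℝ) ≤ 4 * RS.C * ((A : ℝ) * (g.toNat : ℝ)) := by
            apply mul_le_mul_of_nonneg_left h2; positivity
        _ = (4 * RS.C * (A : ℝ)) * (g.toNat : ℝ) := by ring
        _ ≤ (B : ℝ) * (g.toNat : ℝ) := mul_le_mul_of_nonneg_right h3 h4
        _ ≤ ((B : ℝ) + 1) * (g.toNat : ℝ) := by nlinarith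
    have h2 : 2 * (2 * r2 + 1) ^ (n + 2) ≤ (2 * (2 * r2 + 1) ^ (n + 2)) * g.toNat :=
      Nat.le_mul_of_pos_right _ hgn1
    rw [hCR]
    calc M + 2 * (2 * r2 + 1) ^ (n + 2)
        ≤ (B + 1) * g.toNat + (2 * (2 * r2 + 1) ^ (n + 2)) * g.toNat := add_le_add h1 h2
      _ ≤ (Λ' + 3 + (B + 1) + 2 * (2 * r2 + 1) ^ (n + 2)) * g.toNat := by
          rw [← add_mul]
          exact Nat.mul_le_mul_right _ (by omega)
  have hsub : {ω : El (n + 2) → Bool | (∀ e ∈ rdH r2 v w, ω e = true) ∧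
      ∃ ω' ∈ {ω | (∀ q ∈ rdl r2 v w l, ω ∈ RS.reg q.1 q.2) ∧
        ((rdl r2 v w l).map fun q => RS.lam q.1 q.2 ω).sum ≤ M},
        ∀ e ∉ rdH r2 v w, ω' e = ω e} ⊆ Road κ v w (CR * g.toNat) := by
    rintro ω ⟨h1, ω', h2, h3⟩
    exact road_det RS hr2 hg' hl1 hl2 hl3 hl4 hMle (by rw [hCR]; omega) h2 h1 h3
  refine le_trans ?_ (measureReal_mono hsub)
  refine le_trans ?_ hsp
  have hp1 : (p : ℝ) ≤ 1 := p.2.2
  have h5 : (p : ℝ) ^ Hc ≤ (p : ℝ) ^ (rdH r2 v w).card :=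
    pow_le_pow_of_le_one hp.le hp1 (rdH_card r2 v w)
  have h6 : (0 : ℝ) < (p : ℝ) ^ Hc := by positivity
  nlinarith

end Pool.Agent.H94.BM
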