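import Pool.Agent.H94.BM.Defs

/-!
# BM module Scale: arithmetic of the scales

`U = k₀ 2^h`, `u = k₀ q` for `q ∈ Qs`, `κ₅ = 2^(-h₅)`, `h₅ + 1 ≤ h`. `al j = 2^(j-h₅) / U + 1`,
`be j = al j + (2^j + 2 * 2^(j-h₅)) / U + 1`. Corner `ac q j = al j • u + 2^(j-h₅-1) • e0`.
-/

open MeasureTheory Filter Topology
open Pool.Agent.H17.IIC Pool.Agent.H41.QC Pool.Agent.H47.GM Pool.Agent.H17.QA

namespace Pool.Agent.H94.BM

variable {n : ℕ}

def al (U h₅ j : ℕ) : ℕ := 2 ^ (j - h₅) / U + 1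

def be (U h₅ j : ℕ) : ℕ := al U h₅ j + (2 ^ j + 2 * 2 ^ (j - h₅)) / U + 1

/-- corner of the box of starts -/
def ac (U h₅ j : ℕ) (u : V (n + 2)) : V (n + 2) :=
  (al U h₅ j : ℤ) • u + (2 ^ (j - h₅ - 1) : ℤ) • e0

lemma Scale_al {U h₅ j : ℕ} (hU : 1 ≤ U) :
    2 ^ (j - h₅) < al U h₅ j * U ∧ al U h₅ j * U ≤ 2 ^ (j - h₅) + U := by
  unfold al
  have h1 := Nat.div_mul_le_self (2 ^ (j - h₅)) U
  have h2 := Nat.lt_mul_div_succ (2 ^ (j - h₅)) (show 0 < U by omega)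
  constructor
  · rwa [mul_comm]
  · rw [add_mul]; omega

lemma Scale_be {U h₅ j : ℕ} (hU : 1 ≤ U) :
    al U h₅ j * U + (2 ^ j + 2 * 2 ^ (j - h₅)) < be U h₅ j * U ∧
      be U h₅ j * U ≤ al U h₅ j * U + (2 ^ j + 2 * 2 ^ (j - h₅)) + U := by
  unfold be
  have h1 := Nat.div_mul_le_self (2 ^ j + 2 * 2 ^ (j - h₅)) U
  have h2 := Nat.lt_mul_div_succ (2 ^ j + 2 * 2 ^ (j - h₅)) (show 0 < U by omega)
  rw [add_assoc, add_mul _ _ U]
  constructor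
  · rw [mul_comm U] at h2; omega
  · rw [add_mul _ 1 U]; omega

/-- geometry: for `j` large the starts and ends of class `q` are at the right distances of the ends of
the axis -/
theorem scale_geo (Λ h h₅ k₀ : ℕ) (hk : 1 ≤ k₀) (hh : h₅ + 1 ≤ h) :
    ∃ j₀ : ℕ, ∀ j ≥ j₀, ∀ q ∈ Qs n Λ h, ∀ s ∈ Prs Λ j h q (ac (k₀ * 2 ^ h) h₅ j ((k₀ : ℤ) • q)),
      let A : V (n + 2) := (al (k₀ * 2 ^ h) h₅ j : ℤ) • ((k₀ : ℤ) • q)
      let A' : V (n + 2) := (be (k₀ * 2 ^ h) h₅ j : ℤ) • ((k₀ : ℤ) • q)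
      (2 : ℤ) ^ (j - h₅ - 1) ≤ s.1 0 - A 0 ∧ s.1 0 - A 0 ≤ 2 ^ (j - h₅) ∧
      (∀ i, |s.1 i - A i| ≤ (4 * Λ + 4 : ℕ) * (s.1 0 - A 0)) ∧
      (2 : ℤ) ^ (j - h₅) ≤ A' 0 - s.2 0 ∧ A' 0 - s.2 0 ≤ 2 * 2 ^ (j - h₅) ∧
      ∀ i, |A' i - s.2 i| ≤ (4 * Λ + 4 : ℕ) * (A' 0 - s.2 0) := by
  set U := k₀ * 2 ^ h with hU
  have hU1 : 1 ≤ U := Nat.one_le_iff_ne_zero.2 (by positivity)
  refine ⟨h + 1 + U, fun j hj q hq s hs => ?_⟩
  rw [Qs, Finset.mem_filter, mem_Bx] at hq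
  obtain ⟨hqB, hq0⟩ := hq
  simp only [Prs, Finset.mem_filter, Finset.mem_product, mem_box] at hs
  obtain ⟨⟨hsb, -⟩, hs0, hsq⟩ := hs
  obtain ⟨a1, a2⟩ := Scale_al (U := U) (h₅ := h₅) (j := j) hU1
  obtain ⟨b1, b2⟩ := Scale_be (U := U) (h₅ := h₅) (j := j) hU1
  -- powers
  have hPU : 2 * U ≤ 2 ^ (j - h₅) := by
    have h1 : U < 2 ^ U := Nat.lt_two_pow_self
    have h2 : 2 ^ (U + 1) ≤ 2 ^ (j - h₅) := Nat.pow_le_pow_right (by norm_num) (by omega)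
    rw [pow_succ] at h2
    omega
  have hP2 : 2 ^ (j - h₅) = 2 * 2 ^ (j - h₅ - 1) := by
    rw [← pow_succ']; congr 1; omega
  have hP3 : 2 ^ (j - h) ≤ 2 ^ (j - h₅ - 1) := Nat.pow_le_pow_right (by norm_num) (by omega)
  have hP4 : 2 ^ j = 2 ^ (j - h) * 2 ^ h := by rw [← pow_add]; congr 1; omega
  -- to integers
  have hUz : (U : ℤ) = k₀ * 2 ^ h := by rw [hU]; push_cast; ring
  zify at a1 a2 b1 b2 hPU hP2 hP3 hP4
  set α : ℤ := (al U h₅ j : ℤ) with hα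
  set β : ℤ := (be U h₅ j : ℤ) with hβ
  set P : ℤ := 2 ^ (j - h) with hP
  set Q : ℤ := 2 ^ (j - h₅ - 1) with hQ
  set H : ℤ := 2 ^ h with hH
  have hPpos : 0 < P := by positivity
  have hHpos : 0 < H := by positivity
  rw [hP2] at a1 a2 b1 b2 hPU
  rw [hP4] at b1 b2
  have hU0 : (0 : ℤ) < U := by exact_mod_cast hU1
  -- coordinates of the corner
  have hc : ∀ i, (ac U h₅ j ((k₀ : ℤ) • q)) i = α * (k₀ * q i) + Q * (if i = 0 then 1 else 0) := by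
    intro i
    unfold ac e0
    simp only [Pi.add_apply, Pi.smul_apply, smul_eq_mul, Pi.single_apply, hα, hQ]
  have hsb' : ∀ i, 0 ≤ s.1 i - α * (k₀ * q i) - Q * (if i = 0 then 1 else 0) ∧
      s.1 i - α * (k₀ * q i) - Q * (if i = 0 then 1 else 0) < P := by
    intro i
    have := hsb i
    rw [hc i] at this
    push_cast at this
    constructor <;> linarith [this.1, this.2]
  intro A A'
  have hA : ∀ i, A i = α * (k₀ * q i) := fun i => by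
    simp only [A, Pi.smul_apply, smul_eq_mul]
  have hA' : ∀ i, A' i = β * (k₀ * q i) := fun i => by
    simp only [A', Pi.smul_apply, smul_eq_mul]
  have hq0' : (k₀ : ℤ) * q 0 = U := by rw [hq0, hUz]
  have s0 := hsb' 0
  rw [if_pos rfl, hq0'] at s0
  simp only [hA, hA', hq0']
  rw [hP2, hs0, hP4]
  have g1 : Q ≤ s.1 0 - α * U := by linarith [s0.1]
  have g2 : s.1 0 - α * U ≤ 2 * Q := by linarith [s0.2]
  have g3 : 2 * Q ≤ β * U - (s.1 0 + P * H) := by linarith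
  have g4 : β * U - (s.1 0 + P * H) ≤ 2 * (2 * Q) := by linarith
  have hΛ : (((4 * Λ + 4 : ℕ) : ℤ)) = 4 * (Λ : ℤ) + 4 := by push_cast; ring
  have hΛ0 : (0 : ℤ) ≤ Λ := by positivity
  have hQpos : 0 < Q := by positivity
  have hsi : ∀ i, |s.1 i - α * (k₀ * q i)| ≤ s.1 0 - α * U := by
    intro i
    have h1 := hsb' i
    by_cases hi : i = 0
    · subst hi
      rw [hq0', abs_of_nonneg (by linarith)]
    · rw [if_neg hi] at h1
      rw [abs_of_nonneg (by linarith [h1.1])]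
      linarith [h1.2]
  refine ⟨g1, g2, fun i => ?_, g3, g4, fun i => ?_⟩
  · refine (hsi i).trans ?_
    rw [hΛ, add_mul]
    have e1 : 0 ≤ 4 * (Λ : ℤ) * (s.1 0 - α * U) := by
      refine mul_nonneg (by positivity) (by linarith)
    linarith
  · -- the ends
    have e1 : q i * P ≤ s.2 i - s.1 i ∧ s.2 i - s.1 i < q i * P + P := by
      have h1 := hsq i
      have h2 := Int.mul_ediv_add_emod (s.2 i - s.1 i) P
      have h3 := Int.emod_nonneg (s.2 i - s.1 i) hPpos.ne'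
      have h4 := Int.emod_lt_of_pos (s.2 i - s.1 i) hPpos
      rw [h1, mul_comm P] at h2
      constructor <;> linarith
    have hqi : |q i| ≤ Λ * H := by
      have := hqB i
      simp only [Pi.zero_apply, sub_zero] at this
      push_cast at this
      exact this
    set X : ℤ := (β - α) * k₀ - P with hX
    have hXH : X * H = β * U - α * U - P * H := by rw [hX, hUz]; ring
    have hX0 : 0 ≤ X := by
      by_contra hneg
      push Not at hneg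
      have : X * H < 0 := mul_neg_of_neg_of_pos hneg hHpos
      linarith
    have hqX : |q i * X| ≤ Λ * (X * H) := by
      rw [abs_mul, abs_of_nonneg hX0]
      calc |q i| * X ≤ (Λ * H) * X := mul_le_mul_of_nonneg_right hqi hX0
        _ = Λ * (X * H) := by ring
    have e2 : β * (k₀ * q i) - s.2 i = q i * X - (s.1 i - α * (k₀ * q i)) -
        (s.2 i - s.1 i - q i * P) := by rw [hX]; ring
    have e3 : |s.2 i - s.1 i - q i * P| ≤ P := by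
      rw [abs_le]; constructor <;> linarith [e1.1, e1.2]
    rw [e2]
    have e4 := abs_sub (q i * X - (s.1 i - α * (k₀ * q i))) (s.2 i - s.1 i - q i * P)
    have e5 := abs_sub (q i * X) (s.1 i - α * (k₀ * q i))
    have e6 := hsi i
    have e7 : X * H ≤ 6 * Q := by rw [hXH]; linarith
    have e8 : (Λ : ℤ) * (X * H) ≤ Λ * (6 * Q) := mul_le_mul_of_nonneg_left e7 hΛ0
    have e9 : (Λ : ℤ) * (2 * Q) ≤ Λ * (β * U - (s.1 0 + P * H)) :=
      mul_le_mul_of_nonneg_left g3 hΛ0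
    rw [hΛ, add_mul, mul_assoc]
    have e10 : (Λ : ℤ) * (6 * Q) = 3 * (Λ * (2 * Q)) := by ring
    have e11 : 0 ≤ (Λ : ℤ) * (2 * Q) := by positivity
    linarith

/-- sizes: bounds for `al`, `be` -/
theorem scale_size (U h₅ : ℕ) (hU : 1 ≤ U) (c₁ : ℝ) (hc₁ : 0 < c₁)
    (hh : (4 : ℝ) ≤ c₁ * 2 ^ h₅) :
    ∃ j₀ : ℕ, ∀ j ≥ j₀, 1 ≤ al U h₅ j ∧ al U h₅ j < be U h₅ j ∧
      (al U h₅ j : ℝ) * U ≤ c₁ * 2 ^ j ∧ (2 : ℝ) ^ j ≤ U * be U h₅ j ∧ (be U h₅ j : ℝ) * U ≤ 8 * 2 ^ j ∧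
      4 * be U h₅ j ≤ al U h₅ (j + (h₅ + 8)) := by
  refine ⟨h₅ + U, fun j hj => ?_⟩
  obtain ⟨a1, a2⟩ := Scale_al (U := U) (h₅ := h₅) (j := j) hU
  obtain ⟨b1, b2⟩ := Scale_be (U := U) (h₅ := h₅) (j := j) hU
  have hPU : U ≤ 2 ^ (j - h₅) := by
    have h1 : U < 2 ^ U := Nat.lt_two_pow_self
    have h2 : 2 ^ U ≤ 2 ^ (j - h₅) := Nat.pow_le_pow_right (by norm_num) (by omega)
    omega
  have hPJ : 2 ^ (j - h₅) ≤ 2 ^ j := Nat.pow_le_pow_right (by norm_num) (by omega)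
  have hJ : 2 ^ j = 2 ^ (j - h₅) * 2 ^ h₅ := by rw [← pow_add]; congr 1; omega
  have hb8 : be U h₅ j * U ≤ 8 * 2 ^ j := by omega
  refine ⟨Nat.le_add_left _ _, Nat.lt_succ_of_le (Nat.le_add_right _ _), ?_, ?_,
    by exact_mod_cast hb8, ?_⟩
  · have h1 : ((al U h₅ j : ℝ)) * U ≤ 2 * 2 ^ (j - h₅) := by
      have : al U h₅ j * U ≤ 2 * 2 ^ (j - h₅) := by omega
      exact_mod_cast this
    have h2 : (2 : ℝ) ^ j = 2 ^ (j - h₅) * 2 ^ h₅ := by exact_mod_cast hJ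
    have h3 : (0 : ℝ) < 2 ^ (j - h₅) := by positivity
    rw [h2]
    nlinarith
  · have : 2 ^ j ≤ U * be U h₅ j := by rw [mul_comm]; omega
    exact_mod_cast this
  · have h1 : j + (h₅ + 8) - h₅ = j + 8 := by omega
    have h2 : 4 * be U h₅ j ≤ 2 ^ (j + 8) / U := by
      rw [Nat.le_div_iff_mul_le (by omega), pow_add]
      nlinarith
    unfold al
    rw [h1]
    omega

end Pool.Agent.H94.BM
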