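import Pool.Agent.H94.BM.OnLem

/-!
# BM module Select: leftmost and rightmost selection

`select`: `Finset.induction_on_max_value` for `t`: `D = B a \ ⋃ i ∈ s, B i` depends on `E (t a)`, so
`P (D ∩ R a) = P D * P (R a)` (`mu_indep`), and `D ∩ R a` is disjoint from `⋃ i ∈ s, B i ∩ R i`.
`select_two`: first `t = z 0`, `E s = LeE (s + 2^j)`, then `t = - z 0`, `E s = GeE (-s)`.
-/

open MeasureTheory Filter Topology
open Pool.Agent.H17.IIC Pool.Agent.H41.QC Pool.Agent.H47.GM Pool.Agent.H17.QA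

namespace Pool.Agent.H94.BM

variable {n : ℕ}

lemma Select_inter {ι : Type*} {E : Set ι} {A B : Set (ι → Bool)} (hA : On E A) (hB : On E B) :
    On E (A ∩ B) := fun ω ω' h => and_congr (hA ω ω' h) (hB ω ω' h)

lemma Select_diff {ι : Type*} {E : Set ι} {A B : Set (ι → Bool)} (hA : On E A) (hB : On E B) :
    On E (A \ B) := fun ω ω' h => and_congr (hA ω ω' h) (not_congr (hB ω ω' h))

lemma Select_iUnion {ι α : Type*} {E : Set ι} {s : Finset α} {B : α → Set (ι → Bool)}
    (hB : ∀ i ∈ s, On E (B i)) : On E (⋃ i ∈ s, B i) := by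
  intro ω ω' h
  simp only [Set.mem_iUnion]
  constructor
  · rintro ⟨i, hi, hω⟩; exact ⟨i, hi, (hB i hi ω ω' h).1 hω⟩
  · rintro ⟨i, hi, hω⟩; exact ⟨i, hi, (hB i hi ω ω' h).2 hω⟩

lemma Select_open {ι : Type*} {E : Set ι} {e : ι} (he : e ∈ E) :
    On E {ω : ι → Bool | ω e = true} := by
  intro ω ω' h
  simp only [Set.mem_ofPred_eq, h e he]

theorem select {ι κ' : Type*} [DecidableEq ι] (p : unitInterval) (I : Finset ι) (t : ι → ℤ)
    (E : ℤ → Set κ') (hE : Monotone E) (B R : ι → Set (κ' → Bool))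
    (hBm : ∀ i ∈ I, MeasurableSet (B i)) (hRm : ∀ i ∈ I, MeasurableSet (R i))
    (hB : ∀ i ∈ I, On (E (t i)) (B i)) (hR : ∀ i ∈ I, On (E (t i))ᶜ (R i)) (c : ℝ) (hc0 : 0 ≤ c)
    (hc : ∀ i ∈ I, c ≤ (prodBern κ' p).real (R i)) :
    c * (prodBern κ' p).real (⋃ i ∈ I, B i) ≤ (prodBern κ' p).real (⋃ i ∈ I, B i ∩ R i) := by
  revert hBm hRm hB hR hc
  refine Finset.induction_on_max_value t I ?_ ?_
  · intro _ _ _ _ _
    simp
  · intro a s has hmax ih hBm hRm hB hR hc
    have hi : ∀ i ∈ s, i ∈ insert a s := fun i hi => Finset.mem_insert_of_mem hi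
    have ha : a ∈ insert a s := Finset.mem_insert_self _ _
    have ih' := ih (fun i h => hBm i (hi i h)) (fun i h => hRm i (hi i h))
      (fun i h => hB i (hi i h)) (fun i h => hR i (hi i h)) (fun i h => hc i (hi i h))
    set U : Set (κ' → Bool) := ⋃ i ∈ s, B i with hU
    set W : Set (κ' → Bool) := ⋃ i ∈ s, B i ∩ R i with hW
    have hUm : MeasurableSet U := Finset.measurableSet_biUnion _ fun i h => hBm i (hi i h)
    have hWm : MeasurableSet W := Finset.measurableSet_biUnion _ fun i h =>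
      (hBm i (hi i h)).inter (hRm i (hi i h))
    have hWU : W ⊆ U := Set.iUnion₂_mono fun i _ => Set.inter_subset_left
    have hDon : On (E (t a)) (B a \ U) := by
      refine Select_diff (hB a ha) (Select_iUnion fun i h => ?_)
      exact (hB i (hi i h)).mono (hE (hmax i h))
    have hDm : MeasurableSet (B a \ U) := (hBm a ha).diff hUm
    have hind : (prodBern κ' p).real ((B a \ U) ∩ R a) =
        (prodBern κ' p).real (B a \ U) * (prodBern κ' p).real (R a) :=
      mu_indep (fun _ => p) (E (t a)) hDm (hRm a ha) hDon (hR a ha)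
    have e1 : (⋃ i ∈ insert a s, B i) = U ∪ (B a \ U) := by
      rw [Finset.set_biUnion_insert, Set.union_sdiff_self, Set.union_comm]
    have e2 : W ∪ ((B a \ U) ∩ R a) ⊆ ⋃ i ∈ insert a s, B i ∩ R i := by
      rw [Finset.set_biUnion_insert]
      rintro ω (h | h)
      · exact Or.inr h
      · exact Or.inl ⟨h.1.1, h.2⟩
    have e3 : (prodBern κ' p).real (U ∪ (B a \ U)) =
        (prodBern κ' p).real U + (prodBern κ' p).real (B a \ U) :=
      measureReal_union Set.disjoint_sdiff_right hDm (measure_ne_top _ _) (measure_ne_top _ _)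
    have e4 : (prodBern κ' p).real (W ∪ ((B a \ U) ∩ R a)) =
        (prodBern κ' p).real W + (prodBern κ' p).real ((B a \ U) ∩ R a) := by
      refine measureReal_union ?_ (hDm.inter (hRm a ha)) (measure_ne_top _ _) (measure_ne_top _ _)
      rw [Set.disjoint_left]
      intro ω h1 h2
      exact h2.1.2 (hWU h1)
    rw [e1, e3]
    refine le_trans ?_ (measureReal_mono e2 (measure_ne_top _ _))
    rw [e4, hind, mul_add]
    have h5 : c * (prodBern κ' p).real (B a \ U) ≤
        (prodBern κ' p).real (B a \ U) * (prodBern κ' p).real (R a) := by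
      rw [mul_comm]
      exact mul_le_mul_of_nonneg_left (hc a ha) measureReal_nonneg
    linarith

lemma Select_prob {ι : Type*} (p : unitInterval) (e : ι) :
    (prodBern ι p).real {ω | ω e = true} = p := by
  have h1 : {ω : ι → Bool | ω e = true} = Set.pi (({e} : Finset ι) : Set ι) (fun _ => {true}) := by
    ext ω; simp [Set.mem_pi]
  have h2 : bern p {true} = ENNReal.ofReal (p : ℝ) := by
    simp [bern]
  rw [h1, measureReal_def, prodBern, Measure.infinitePi_pi (μ := fun _ : ι => bern p)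
    (fun i _ => MeasurableSet.singleton _), Finset.prod_congr rfl (fun i _ => h2),
    Finset.prod_const, ENNReal.toReal_pow, ENNReal.toReal_ofReal p.2.1, Finset.card_singleton,
    pow_one]

lemma Select_open_meas {ι : Type*} (e : ι) : MeasurableSet {ω : ι → Bool | ω e = true} :=
  measurableSet_eq_fun (measurable_pi_apply e) measurable_const

lemma Select_road {κ : Kind} {p : unitInterval} {v w x : V (n + 2)} {R : ℕ}
    (hx : x 0 ≤ v 0 ∨ w 0 ≤ x 0) {c : ℝ}
    (hc : c ≤ (prodBern (El (n + 2)) p).real (Road κ v w R)) :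
    c * p ≤ (prodBern (El (n + 2)) p).real (Road κ v w R ∩ {ω | ω s(x, x) = true}) := by
  have h := mu_indep (fun _ : El (n + 2) => p) {s(x, x)}ᶜ (road_meas κ v w R)
    (Select_open_meas s(x, x)) (road_diag κ v w x R hx) (by
      rw [compl_compl]
      exact Select_open rfl)
  rw [mu_const] at h
  rw [h, Select_prob]
  exact mul_le_mul_of_nonneg_right hc p.2.1

/-- both sides, for the bridges and roads of this package -/
theorem select_two (κ : Kind) (p : unitInterval) (b' : ℝ) (Λ j : ℕ)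
    (I : Finset (V (n + 2) × V (n + 2))) (hI : ∀ s ∈ I, s.2 0 = s.1 0 + 2 ^ j)
    (A A' : V (n + 2)) (R₁ R₂ : V (n + 2) → ℕ) (hA : ∀ s ∈ I, A 0 < s.1 0)
    (hA' : ∀ s ∈ I, s.2 0 < A' 0) (c : ℝ) (hc0 : 0 ≤ c)
    (hc₁ : ∀ s ∈ I, c ≤ (prodBern (El (n + 2)) p).real (Road κ A s.1 (R₁ s.1)))
    (hc₂ : ∀ s ∈ I, c ≤ (prodBern (El (n + 2)) p).real (Road κ s.2 A' (R₂ s.2))) :
    (c * p) ^ 2 * (prodBern (El (n + 2)) p).real (⋃ s ∈ I, Bz κ b' Λ j s.1 s.2) ≤
      (prodBern (El (n + 2)) p).real (⋃ s ∈ I, (Bz κ b' Λ j s.1 s.2 ∩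
        (Road κ s.2 A' (R₂ s.2) ∩ {ω | ω s(A', A') = true})) ∩
        (Road κ A s.1 (R₁ s.1) ∩ {ω | ω s(A, A) = true})) := by
  have hcp : 0 ≤ c * p := mul_nonneg hc0 p.2.1
  have hle : ∀ s ∈ I, s.1 0 ≤ s.2 0 := fun s hs => by
    rw [hI s hs]
    have : (0 : ℤ) < 2 ^ j := by positivity
    linarith
  set B : V (n + 2) × V (n + 2) → Set (El (n + 2) → Bool) := fun s => Bz κ b' Λ j s.1 s.2 with hB
  set R : V (n + 2) × V (n + 2) → Set (El (n + 2) → Bool) := fun s =>
    Road κ s.2 A' (R₂ s.2) ∩ {ω | ω s(A', A') = true} with hR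
  set R' : V (n + 2) × V (n + 2) → Set (El (n + 2) → Bool) := fun s =>
    Road κ A s.1 (R₁ s.1) ∩ {ω | ω s(A, A) = true} with hR'
  have hBm : ∀ s ∈ I, MeasurableSet (B s) := fun s hs => bz_meas κ b' Λ j _ _ (hle s hs)
  have hRm : ∀ s ∈ I, MeasurableSet (R s) := fun s _ =>
    (road_meas κ _ _ _).inter (Select_open_meas _)
  have hRm' : ∀ s ∈ I, MeasurableSet (R' s) := fun s _ =>
    (road_meas κ _ _ _).inter (Select_open_meas _)
  have hmono : Monotone fun τ : ℤ => LeE (n := n) τ := fun τ τ' h e he x hx => (he x hx).trans h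
  have hmono' : Monotone fun τ : ℤ => GeE (n := n) (-τ) := fun τ τ' h e he x hx =>
    le_trans (neg_le_neg h) (he x hx)
  have one := select p I (fun s => s.2 0) (fun τ => LeE (n := n) τ) hmono B R hBm hRm
    (fun s hs => bz_le κ b' Λ j _ _ (hle s hs)) (fun s hs => by
      refine Select_inter (road_above κ _ _ _) (Select_open ?_)
      intro h
      have := h A' (by simp)
      have := hA' s hs
      omega) (c * p) hcp (fun s hs => Select_road (Or.inr le_rfl) (hc₂ s hs))
  have two := select p I (fun s => -s.1 0) (fun τ => GeE (n := n) (-τ)) hmono'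
    (fun s => B s ∩ R s) R' (fun s hs => (hBm s hs).inter (hRm s hs)) hRm'
    (fun s hs => by
      rw [neg_neg]
      refine Select_inter (bz_ge κ b' Λ j _ _ (hle s hs)) (Select_inter ?_ (Select_open ?_))
      · refine (road_ge κ _ _ _).mono ?_
        intro e he x hx
        exact (hle s hs).trans (he x hx)
      · intro x hx
        have hx' : x = A' := by simpa using hx
        rw [hx']
        have := hle s hs
        have := hA' s hs
        omega)
    (fun s hs => by
      rw [neg_neg]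
      refine Select_inter (road_below κ _ _ _) (Select_open ?_)
      intro h
      have := h A (by simp)
      have := hA s hs
      omega) (c * p) hcp (fun s hs => Select_road (Or.inl le_rfl) (hc₁ s hs))
  calc (c * p) ^ 2 * (prodBern (El (n + 2)) p).real (⋃ s ∈ I, B s) =
      c * p * (c * p * (prodBern (El (n + 2)) p).real (⋃ s ∈ I, B s)) := by ring
    _ ≤ c * p * (prodBern (El (n + 2)) p).real (⋃ s ∈ I, B s ∩ R s) :=
        mul_le_mul_of_nonneg_left one hcp
    _ ≤ (prodBern (El (n + 2)) p).real (⋃ s ∈ I, B s ∩ R s ∩ R' s) := two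

end Pool.Agent.H94.BM
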