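import Pool.Agent.H17.QA.Ctrl
import Pool.Agent.H94.BM.OnLem

/-!
# BM module Sym: symmetry reduction and cutting into classes

(1) `isFam_tr`: transport of families by a lattice automorphism. (2) `BR .. j` is contained in the union over the direction `m`
and the sign `σ` of `tr φ.symm ⁻¹' (⋃ s, Bz s)`, with `φ = sperm (swap 0 m) (fun _ => σ)`, starts in
`Bx 0 (K 2^j)`; the law is invariant (`tr_law`). (3) `Bx 0 (K 2^j)` is covered by the boxes of side `2^(j-h)` at
`2^(j-h) • a`, `a ∈ Bx 0 (K 2^h)`; the displacement `z' - z` has a class `q ∈ Qs` (`N ≤ Λ 2^j`). (4) translation.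
-/

open MeasureTheory Filter Topology
open Pool.Agent.H17.IIC Pool.Agent.H41.QC Pool.Agent.H47.GM Pool.Agent.H17.QA

namespace Pool.Agent.H94.BM

variable {n d : ℕ}

lemma Sym_fam {κ : Kind} {φ : V d ≃ V d} (hφ : IsAut φ) {ω : El d → Bool}
    {l : List (V d)} {x y : V d} {N : ℕ} (h : l ∈ Fam κ (tr φ ω) Set.univ x y N) :
    l.map φ ∈ Fam κ ω Set.univ (φ x) (φ y) N := by
  obtain ⟨hop, hlen, hhd, hlast, -⟩ := h
  refine ⟨⟨hop.nodup.map φ.injective, ?_, ?_⟩, ?_, ?_, ?_, ?_⟩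
  · rw [List.isChain_map]
    exact hop.chain.imp fun a b hab => (hφ.adj a b).2 hab
  · have ho := hop.opn
    cases κ with
    | bond =>
      show (l.map φ).IsChain (fun a b => ω s(a, b) = true)
      rw [List.isChain_map]
      exact ho
    | site =>
      intro a ha
      rw [List.mem_map] at ha
      obtain ⟨b, hb, rfl⟩ := ha
      exact ho b hb
  · rw [List.length_map]; exact hlen
  · rw [List.head?_map, hhd]; rfl
  · rw [List.getLast?_map, hlast]; rfl
  · intro v _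
    exact Set.mem_univ v

open Classical in
lemma isFam_tr {κ : Kind} {φ : V d ≃ V d} (hφ : IsAut φ) {ω : El d → Bool}
    {F : Finset (List (V d))} {x y : V d} {N : ℕ} (h : IsFam κ (tr φ ω) F x y N) :
    IsFam κ ω (F.image (List.map φ)) (φ x) (φ y) N ∧ (F.image (List.map φ)).card = F.card := by
  constructor
  · intro l hl
    rw [Finset.mem_image] at hl
    obtain ⟨l', hl', rfl⟩ := hl
    exact Sym_fam hφ (h l' hl')
  · exact Finset.card_image_of_injective _ (List.map_injective_iff.2 φ.injective)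

lemma Sym_mem_Prs {Λ j h : ℕ} {q c : V (n + 2)} {s : V (n + 2) × V (n + 2)} :
    s ∈ Prs Λ j h q c ↔ (s.1 ∈ box c (2 ^ (j - h)) ∧ s.2 ∈ Bx c (2 ^ (j - h) + Λ * 2 ^ j)) ∧
      InCl j h q s.1 s.2 := by
  classical
  unfold Prs
  rw [Finset.mem_filter, Finset.mem_product]

lemma Sym_bcl_meas (κ : Kind) (b' : ℝ) (Λ j h : ℕ) (q c : V (n + 2)) :
    MeasurableSet (Bcl κ b' Λ j h q c) := by
  unfold Bcl
  refine Finset.measurableSet_biUnion _ ?_
  intro s hs
  refine bz_meas κ b' Λ j s.1 s.2 ?_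
  rw [Sym_mem_Prs] at hs
  have := hs.2.1
  rw [this]
  have : (0 : ℤ) < 2 ^ j := by positivity
  omega

lemma Sym_bz_tr {κ : Kind} {φ : V (n + 2) ≃ V (n + 2)} (hφ : IsAut φ) {ω : El (n + 2) → Bool} {b' : ℝ}
    {Λ j : ℕ} {z z' : V (n + 2)}
    (hb : ∀ v, (v = z ∨ v = z' ∨ (min (z 0) (z' 0) < v 0 ∧ v 0 < max (z 0) (z' 0))) →
      (φ v = φ z ∨ φ v = φ z' ∨
        (min (φ z 0) (φ z' 0) < φ v 0 ∧ φ v 0 < max (φ z 0) (φ z' 0))))
    (h : tr φ ω ∈ Bz κ b' Λ j z z') : ω ∈ Bz κ b' Λ j (φ z) (φ z') := by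
  classical
  obtain ⟨F, N, hF, hfam, hbt, hN, hc⟩ := h
  obtain ⟨h1, h2⟩ := isFam_tr hφ hfam
  refine ⟨F.image (List.map φ), N, hF.image _, h1, ?_, hN, by rw [h2]; exact hc⟩
  intro l hl v hv
  rw [Finset.mem_image] at hl
  obtain ⟨l', hl', rfl⟩ := hl
  rw [List.mem_map] at hv
  obtain ⟨w, hw, rfl⟩ := hv
  exact hb w (hbt l' hl' w hw)

lemma Sym_shift_le (κ : Kind) (p : unitInterval) (b' : ℝ) (Λ j h : ℕ) (q c c' : V (n + 2)) :
    (prodBern (El (n + 2)) p).real (Bcl κ b' Λ j h q c)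
      ≤ (prodBern (El (n + 2)) p).real (Bcl κ b' Λ j h q c') := by
  have htr : Measurable (tr (Equiv.addRight (c' - c)) : (El (n + 2) → Bool) → (El (n + 2) → Bool)) :=
    measurable_pi_iff.2 fun e => measurable_pi_apply _
  have h1 : (prodBern (El (n + 2)) p).real (Bcl κ b' Λ j h q c) =
      (prodBern (El (n + 2)) p).real
        (tr (Equiv.addRight (c' - c)) ⁻¹' Bcl κ b' Λ j h q c) := by
    rw [← map_measureReal_apply htr (Sym_bcl_meas κ b' Λ j h q c), tr_law]
  rw [h1]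
  refine measureReal_mono ?_
  intro ω hω
  rw [Set.mem_preimage] at hω
  unfold Bcl at hω ⊢
  rw [Set.mem_iUnion₂] at hω ⊢
  obtain ⟨s, hs, hω⟩ := hω
  refine ⟨(s.1 + (c' - c), s.2 + (c' - c)), ?_, ?_⟩
  · rw [Sym_mem_Prs] at hs ⊢
    obtain ⟨⟨h1, h2⟩, h3, h4⟩ := hs
    rw [mem_box] at h1
    rw [mem_Bx] at h2
    refine ⟨⟨?_, ?_⟩, ?_, ?_⟩
    · rw [mem_box]
      intro i
      have := h1 i
      simp only [Pi.add_apply, Pi.sub_apply]
      constructor <;> omega
    · rw [mem_Bx]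
      intro i
      have := h2 i
      simp only [Pi.add_apply, Pi.sub_apply]
      rw [show s.2 i + (c' i - c i) - c' i = s.2 i - c i by ring]
      exact this
    · simp only [Pi.add_apply, Pi.sub_apply]
      omega
    · intro i
      have := h4 i
      simp only [Pi.add_apply, Pi.sub_apply]
      rw [show s.2 i + (c' i - c i) - (s.1 i + (c' i - c i)) = s.2 i - s.1 i by ring]
      exact this
  · refine Sym_bz_tr (φ := Equiv.addRight (c' - c)) (isAut_add (c' - c)) ?_ hω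
    intro v hv
    simp only [Equiv.coe_addRight, Pi.add_apply, Pi.sub_apply]
    rcases hv with rfl | rfl | ⟨h1, h2⟩
    · exact Or.inl rfl
    · exact Or.inr (Or.inl rfl)
    · right; right
      constructor
      · rw [min_add_add_right]; omega
      · rw [max_add_add_right]; omega

/-- translation invariance -/
theorem bcl_shift (κ : Kind) (p : unitInterval) (b' : ℝ) (Λ j h : ℕ) (q c c' : V (n + 2)) :
    (prodBern (El (n + 2)) p).real (Bcl κ b' Λ j h q c)
      = (prodBern (El (n + 2)) p).real (Bcl κ b' Λ j h q c') :=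
  le_antisymm (Sym_shift_le κ p b' Λ j h q c c') (Sym_shift_le κ p b' Λ j h q c' c)

/-- the covering event -/
def Sym_G (κ : Kind) (b' : ℝ) (Λ K j h : ℕ) : Set (El (n + 2) → Bool) :=
  ⋃ a ∈ Bx (0 : V (n + 2)) (K * 2 ^ h), ⋃ q ∈ Qs n Λ h,
    Bcl κ b' Λ j h q (fun i => 2 ^ (j - h) * a i)

lemma Sym_G_meas (κ : Kind) (b' : ℝ) (Λ K j h : ℕ) :
    MeasurableSet (Sym_G (n := n) κ b' Λ K j h) :=
  Finset.measurableSet_biUnion _ fun _ _ => Finset.measurableSet_biUnion _ fun _ _ =>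
    Sym_bcl_meas κ b' Λ j h _ _

/-- floor of a bounded quotient -/
lemma Sym_div {a : ℤ} {K j h : ℕ} (hj : h ≤ j) (ha : |a| ≤ ((K * 2 ^ j : ℕ) : ℤ)) :
    |a / 2 ^ (j - h)| ≤ ((K * 2 ^ h : ℕ) : ℤ) := by
  have hp : (0 : ℤ) < 2 ^ (j - h) := by positivity
  have he : ((K * 2 ^ j : ℕ) : ℤ) = ((K * 2 ^ h : ℕ) : ℤ) * 2 ^ (j - h) := by
    push_cast
    rw [mul_assoc, ← pow_add]
    congr 2
    omega
  rw [he, abs_le] at ha
  rw [abs_le]
  constructor
  · rw [Int.le_ediv_iff_mul_le hp]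
    linarith [ha.1]
  · exact Int.ediv_le_of_le_mul hp ha.2

/-- a rich bridge starting in the big box belongs to a class -/
lemma Sym_cover (κ : Kind) (b' : ℝ) (Λ K j h : ℕ) (hj : h ≤ j) {z z' : V (n + 2)}
    (hz : z ∈ Bx (0 : V (n + 2)) (K * 2 ^ j)) (hzz : z' 0 = z 0 + 2 ^ j) {ω : El (n + 2) → Bool}
    (hω : ω ∈ Bz κ b' Λ j z z') : ω ∈ Sym_G κ b' Λ K j h := by
  have hp : (0 : ℤ) < 2 ^ (j - h) := by positivity
  rw [mem_Bx] at hz
  -- the end is near
  have hnear : ∀ i, |z' i - z i| ≤ ((Λ * 2 ^ j : ℕ) : ℤ) := by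
    obtain ⟨F, N, ⟨l, hl⟩, hfam, hb, hN, hc⟩ := hω
    obtain ⟨hop, hlen, hhd, hlast, hU⟩ := hfam l hl
    have := chain_near hop.chain hhd (N := N) (by omega) z' (List.mem_of_getLast? hlast)
    rw [mem_Bx] at this
    intro i
    refine (this i).trans ?_
    exact_mod_cast hN
  unfold Sym_G
  rw [Set.mem_iUnion₂]
  refine ⟨fun i => z i / 2 ^ (j - h), ?_, ?_⟩
  · rw [mem_Bx]
    intro i
    simp only [Pi.zero_apply, sub_zero]
    have := hz i
    simp only [Pi.zero_apply, sub_zero] at this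
    exact Sym_div hj this
  rw [Set.mem_iUnion₂]
  refine ⟨fun i => (z' i - z i) / 2 ^ (j - h), ?_, ?_⟩
  · unfold Qs
    rw [Finset.mem_filter, mem_Bx]
    refine ⟨?_, ?_⟩
    · intro i
      simp only [Pi.zero_apply, sub_zero]
      exact Sym_div hj (hnear i)
    · show (z' 0 - z 0) / 2 ^ (j - h) = 2 ^ h
      rw [hzz]
      have : (2 : ℤ) ^ j = 2 ^ h * 2 ^ (j - h) := by
        rw [← pow_add]; congr 1; omega
      rw [add_sub_cancel_left, this, Int.mul_ediv_cancel _ hp.ne']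
  · unfold Bcl
    rw [Set.mem_iUnion₂]
    refine ⟨(z, z'), ?_, hω⟩
    have hdm : ∀ i, 2 ^ (j - h) * (z i / 2 ^ (j - h)) ≤ z i ∧
        z i < 2 ^ (j - h) * (z i / 2 ^ (j - h)) + 2 ^ (j - h) := by
      intro i
      have h1 := Int.mul_ediv_add_emod (z i) (2 ^ (j - h))
      have h2 := Int.emod_nonneg (z i) hp.ne'
      have h3 := Int.emod_lt_of_pos (z i) hp
      constructor <;> linarith
    rw [Sym_mem_Prs, mem_box, mem_Bx]
    refine ⟨⟨?_, ?_⟩, hzz, fun i => rfl⟩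
    · intro i
      refine ⟨(hdm i).1, ?_⟩
      have := (hdm i).2
      push_cast
      exact this
    · intro i
      have h1 := hdm i
      have h2 := hnear i
      simp only
      rw [abs_le] at h2 ⊢
      push_cast at h2 ⊢
      constructor <;> linarith [h1.1, h1.2, h2.1, h2.2]

lemma Sym_sub (κ : Kind) (b' : ℝ) (Λ K j h : ℕ) (hj : h ≤ j) :
    (BR κ b' Λ K j : Set (El (n + 2) → Bool)) ⊆
      ⋃ t ∈ (Finset.univ : Finset (Fin (n + 2) × Bool)),
        tr (sperm (Equiv.swap 0 t.1) (fun _ => t.2)).symm ⁻¹' Sym_G κ b' Λ K j h := by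
  intro ω hω
  obtain ⟨F, x, y, N, m, hF, hx, hfam, hb, hxy, hN, hc⟩ := hω
  obtain ⟨σ, hσ⟩ : ∃ σ : Bool, sg σ * (y m - x m) = 2 ^ j := by
    rcases abs_eq (by positivity : (0 : ℤ) ≤ 2 ^ j) |>.1 hxy with h | h
    · exact ⟨true, by simp [sg, h]⟩
    · exact ⟨false, by simp [sg] ; linarith⟩
  rw [Set.mem_iUnion₂]
  refine ⟨(m, σ), Finset.mem_univ _, ?_⟩
  rw [Set.mem_preimage]
  set ψ := sperm (Equiv.swap (0 : Fin (n + 2)) m) (fun _ => σ) with hψ
  have hψ0 : ∀ v : V (n + 2), ψ v 0 = sg σ * v m := by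
    intro v
    show sg σ * v (Equiv.swap 0 m 0) = _
    rw [Equiv.swap_apply_left]
  have hψa : IsAut ψ := isAut_sperm _ _
  have hback : tr ψ (tr ψ.symm ω) = ω := by
    funext e
    show ω ((e.map ψ).map ψ.symm) = ω e
    rw [Sym2.map_map]
    simp
  have hfam' : IsFam κ (tr ψ (tr ψ.symm ω)) F x y N := by rw [hback]; exact hfam
  classical
  obtain ⟨h1, h2⟩ := isFam_tr hψa hfam'
  have hsg : |sg σ| = 1 := by cases σ <;> simp [sg]
  have hdiff : ψ y 0 = ψ x 0 + 2 ^ j := by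
    rw [hψ0, hψ0, ← hσ]; ring
  have hp : (0 : ℤ) < 2 ^ j := by positivity
  refine Sym_cover κ b' Λ K j h hj (z := ψ x) (z' := ψ y) ?_ hdiff ?_
  · rw [mem_Bx]
    intro i
    rw [mem_box] at hx
    have := hx (Equiv.swap 0 m i)
    show |sg σ * x (Equiv.swap 0 m i) - 0| ≤ _
    rw [sub_zero, abs_mul, hsg, one_mul, abs_le]
    simp only [Pi.zero_apply, zero_add] at this
    constructor <;> omega
  · refine ⟨F.image (List.map ψ), N, hF.image _, h1, ?_, hN, by rw [h2]; exact hc⟩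
    intro l hl v hv
    rw [Finset.mem_image] at hl
    obtain ⟨l', hl', rfl⟩ := hl
    rw [List.mem_map] at hv
    obtain ⟨w, hw, rfl⟩ := hv
    rcases hb l' hl' w hw with rfl | rfl | ⟨h3, h4⟩
    · exact Or.inl rfl
    · exact Or.inr (Or.inl rfl)
    · right; right
      rw [hdiff, min_eq_left (by omega), max_eq_right (by omega), ← hdiff, hψ0, hψ0, hψ0]
      cases σ with
      | true =>
        simp only [sg, if_true, one_mul] at hσ ⊢
        rw [min_eq_left (by omega)] at h3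
        rw [max_eq_right (by omega)] at h4
        exact ⟨h3, h4⟩
      | false =>
        simp only [sg] at hσ ⊢
        norm_num at hσ ⊢
        rw [min_eq_right (by omega)] at h3
        rw [max_eq_left (by omega)] at h4
        exact ⟨h4, h3⟩

/-- THE REDUCTION. `a q` is any choice of the corners. -/
theorem br_le (κ : Kind) (p : unitInterval) (b' : ℝ) (Λ K j h : ℕ) (hj : h ≤ j)
    (a : V (n + 2) → V (n + 2)) :
    (prodBern (El (n + 2)) p).real (BR κ b' Λ K j) ≤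
      2 * (n + 2) * (Bx (0 : V (n + 2)) (K * 2 ^ h)).card *
        ∑ q ∈ Qs n Λ h, (prodBern (El (n + 2)) p).real (Bcl κ b' Λ j h q (a q)) := by
  set P := prodBern (El (n + 2)) p with hP
  have h1 : P.real (BR κ b' Λ K j) ≤ ∑ t ∈ (Finset.univ : Finset (Fin (n + 2) × Bool)),
      P.real (tr (sperm (Equiv.swap 0 t.1) (fun _ => t.2)).symm ⁻¹' Sym_G κ b' Λ K j h) :=
    (measureReal_mono (Sym_sub κ b' Λ K j h hj) (measure_ne_top _ _)).trans
      (measureReal_biUnion_finset_le _ _)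
  have h2 : ∀ t : Fin (n + 2) × Bool,
      P.real (tr (sperm (Equiv.swap 0 t.1) (fun _ => t.2)).symm ⁻¹' Sym_G κ b' Λ K j h) =
      P.real (Sym_G (n := n) κ b' Λ K j h) := by
    intro t
    have htr : Measurable (tr (sperm (Equiv.swap 0 t.1) (fun _ => t.2)).symm :
        (El (n + 2) → Bool) → (El (n + 2) → Bool)) :=
      measurable_pi_iff.2 fun e => measurable_pi_apply _
    rw [hP, ← map_measureReal_apply htr (Sym_G_meas κ b' Λ K j h), tr_law]
  have h3 : P.real (Sym_G (n := n) κ b' Λ K j h) ≤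
      (Bx (0 : V (n + 2)) (K * 2 ^ h)).card *
        ∑ q ∈ Qs n Λ h, P.real (Bcl κ b' Λ j h q (a q)) := by
    unfold Sym_G
    refine (measureReal_biUnion_finset_le _ _).trans ?_
    rw [← nsmul_eq_mul]
    refine Finset.sum_le_card_nsmul _ _ _ ?_
    intro c _
    refine (measureReal_biUnion_finset_le _ _).trans ?_
    exact Finset.sum_le_sum fun q _ => (bcl_shift κ p b' Λ j h q _ _).le
  calc P.real (BR κ b' Λ K j)
      ≤ ∑ t ∈ (Finset.univ : Finset (Fin (n + 2) × Bool)),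
        P.real (Sym_G (n := n) κ b' Λ K j h) := by
        refine h1.trans (Finset.sum_le_sum fun t _ => (h2 t).le)
    _ = 2 * (n + 2) * P.real (Sym_G (n := n) κ b' Λ K j h) := by
        rw [Finset.sum_const, Finset.card_univ, Fintype.card_prod, Fintype.card_fin,
          Fintype.card_bool, nsmul_eq_mul]
        push_cast
        ring
    _ ≤ 2 * (n + 2) * ((Bx (0 : V (n + 2)) (K * 2 ^ h)).card *
        ∑ q ∈ Qs n Λ h, P.real (Bcl κ b' Λ j h q (a q))) :=
        mul_le_mul_of_nonneg_left h3 (by positivity)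
    _ = _ := by ring

end Pool.Agent.H94.BM
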