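import Pool.Agent.H94.BM.Glue
import Pool.Agent.H94.BM.RoadP
import Pool.Agent.H94.BM.Scale
import Pool.Agent.H94.BM.Select
import Pool.Agent.H94.BM.Sym

/-!
# BM module Final: rich bridges give modules

`mod_le` (one class): `Bcl` with corner `ac` has probability at most `(c₃ p)^(-2)` times the module event:
`select_two`, `scale_geo`, `road_prob` with `Λ' = 4 Λ + 4`, `glue`; surplus: `b N + c β ≤ b' N₀` because
`N ≤ N₀ + 3 CR 2^(j-h₅) + 4`, `N₀ ≥ 2^j`, `b (3 CR 2^(-h₅)) + small + 8 c / U ≤ b' - b` with `c = (b'-b) U / 32`.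
-/

open MeasureTheory Filter Topology
open Pool.Agent.H17.IIC Pool.Agent.H41.QC Pool.Agent.H47.GM Pool.Agent.H17.QA

namespace Pool.Agent.H94.BM

variable {n : ℕ}

lemma slab_finite (C₁ : ℝ) (u : V (n + 2)) (α β : ℕ) : (slab C₁ u α β).Finite := by
  refine (Finset.finite_toSet (Bx (0 : V (n + 2)) ⌈C₁ * β⌉₊)).subset ?_
  rintro x ⟨-, -, h⟩
  rw [Finset.mem_coe, mem_Bx]
  intro i
  have h1 := h i
  have h2 : (|x i| : ℝ) ≤ (⌈C₁ * β⌉₊ : ℝ) := h1.trans (Nat.le_ceil _)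
  rw [Pi.zero_apply, sub_zero]
  exact_mod_cast h2

lemma exists_pow_ge (x : ℝ) : ∃ m : ℕ, ∀ j ≥ m, x ≤ 2 ^ j := by
  obtain ⟨m, hm⟩ := pow_unbounded_of_one_lt x (one_lt_two : (1 : ℝ) < 2)
  refine ⟨m, fun j hj => hm.le.trans ?_⟩
  exact pow_le_pow_right₀ one_le_two hj

theorem mod_le {κ : Kind} {p : unitInterval} (RS : RoadSys κ (n + 2) p) (hp : 0 < (p : ℝ))
    (b b' : ℝ) (hb : 0 ≤ b) (hbb : b < b') (Λ : ℕ) :
    ∃ (c₄ : ℝ) (h₆ : ℕ), 0 < c₄ ∧ ∀ h₅ ≥ h₆, ∀ h k₀ : ℕ, 1 ≤ k₀ → h₅ + 1 ≤ h →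
      ∃ (C₁ : ℝ) (j₀ : ℕ), ∀ j ≥ j₀, ∀ q ∈ Qs n Λ h,
        c₄ * (prodBern (El (n + 2)) p).real
          (Bcl κ b' Λ j h q (ac (k₀ * 2 ^ h) h₅ j ((k₀ : ℤ) • q))) ≤
        (prodBern (El (n + 2)) p).real (Mod κ b ((b' - b) * ((k₀ * 2 ^ h : ℕ) : ℝ) / 32) C₁ ((k₀ : ℤ) • q)
          (al (k₀ * 2 ^ h) h₅ j) (be (k₀ * 2 ^ h) h₅ j)) := by
  obtain ⟨c₃, CR, g₀, hc₃, hroad⟩ := road_prob RS hp (4 * Λ + 4)
  have hη : 0 < b' - b := sub_pos.2 hbb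
  obtain ⟨h₆, hh₆⟩ := exists_pow_ge (24 * b * CR / (b' - b))
  refine ⟨(c₃ * p) ^ 2, h₆, by positivity, ?_⟩
  intro h₅ hh₅ h k₀ hk₀ hh
  set U : ℕ := k₀ * 2 ^ h with hU
  have hU1 : 1 ≤ U := Nat.one_le_iff_ne_zero.2 (by positivity)
  obtain ⟨j₁, hgeo⟩ := scale_geo (n := n) Λ h h₅ k₀ hk₀ hh
  obtain ⟨j₂, hsize⟩ := scale_size U h₅ hU1 4 (by norm_num)
    (by have : (1 : ℝ) ≤ 2 ^ h₅ := one_le_pow₀ one_le_two
        linarith)
  obtain ⟨j₃, hj₃⟩ := exists_pow_ge (32 * b / (b' - b))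
  obtain ⟨j₄, hj₄⟩ := exists_pow_ge (g₀ : ℝ)
  refine ⟨(9 * Λ + 3 * CR + 4) * U, max (max j₁ j₂) (max j₃ (j₄ + h₅ + 1)), ?_⟩
  intro j hj q hq
  have hj1 : j₁ ≤ j := le_trans (le_trans (le_max_left _ _) (le_max_left _ _)) hj
  have hj2 : j₂ ≤ j := le_trans (le_trans (le_max_right _ _) (le_max_left _ _)) hj
  have hj3 : j₃ ≤ j := le_trans (le_trans (le_max_left _ _) (le_max_right _ _)) hj
  have hj4 : j₄ + h₅ + 1 ≤ j := le_trans (le_trans (le_max_right _ _) (le_max_right _ _)) hj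
  have hG := hgeo j hj1 q hq
  obtain ⟨hs1, hs2, hs3, hs4, hs5, hs6⟩ := hsize j hj2
  rw [← hU] at hG
  simp only at hG
  set α : ℕ := al U h₅ j with hα
  set β : ℕ := be U h₅ j with hβ
  set u : V (n + 2) := (k₀ : ℤ) • q with hu
  set A : V (n + 2) := (α : ℤ) • u with hA
  set A' : V (n + 2) := (β : ℤ) • u with hA'
  set I := Prs Λ j h q (ac U h₅ j u) with hI
  -- the bounds of the roads
  have hg₀ : (g₀ : ℤ) ≤ 2 ^ (j - h₅ - 1) := by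
    have h1 : (g₀ : ℝ) ≤ 2 ^ (j - h₅ - 1) := hj₄ _ (by omega)
    exact_mod_cast h1
  have h2j : (2 : ℤ) ^ (j - h₅ - 1) ≤ 2 ^ (j - h₅) := pow_le_pow_right₀ (by norm_num) (by omega)
  have hpos1 : (0 : ℤ) < 2 ^ (j - h₅ - 1) := by positivity
  have hsel := select_two κ p b' Λ j I (fun s hs => by
      classical
      rw [hI, Prs, Finset.mem_filter] at hs
      exact hs.2.1) A A' (fun z => CR * (z 0 - A 0).toNat) (fun z => CR * (A' 0 - z 0).toNat)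
    (fun s hs => by have := (hG s hs).1; omega)
    (fun s hs => by have := (hG s hs).2.2.2.1; omega) c₃ hc₃.le
    (fun s hs => hroad A s.1 (by have := (hG s hs).1; omega) (hG s hs).2.2.1)
    (fun s hs => hroad s.2 A' (by have := (hG s hs).2.2.2.1; omega) (hG s hs).2.2.2.2.2)
  refine le_trans hsel (measureReal_mono ?_)
  intro ω hω
  rw [Set.mem_iUnion₂] at hω
  obtain ⟨s, hs, ⟨hB, hR₂, hoA'⟩, hR₁, hoA⟩ := hω
  obtain ⟨g1, g2, g3, g4, g5, g6⟩ := hG s hs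
  -- sizes in ℝ
  have hR1 : ((CR * (s.1 0 - A 0).toNat : ℕ) : ℝ) ≤ CR * 2 ^ (j - h₅) := by
    push_cast
    refine mul_le_mul_of_nonneg_left ?_ (Nat.cast_nonneg _)
    have h1 : (((s.1 0 - A 0).toNat : ℤ)) ≤ 2 ^ (j - h₅) := by
      rw [Int.toNat_of_nonneg (by omega)]; exact g2
    exact_mod_cast h1
  have hR2 : ((CR * (A' 0 - s.2 0).toNat : ℕ) : ℝ) ≤ CR * (2 * 2 ^ (j - h₅)) := by
    push_cast
    refine mul_le_mul_of_nonneg_left ?_ (Nat.cast_nonneg _)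
    have h1 : (((A' 0 - s.2 0).toNat : ℤ)) ≤ 2 * 2 ^ (j - h₅) := by
      rw [Int.toNat_of_nonneg (by omega)]; exact g5
    exact_mod_cast h1
  have h2pos : (0 : ℝ) < 2 ^ j := by positivity
  have hsplit : (2 : ℝ) ^ (j - h₅) * 2 ^ h₅ = 2 ^ j := by
    rw [← pow_add]; congr 1; omega
  have hle2 : (2 : ℝ) ^ (j - h₅) ≤ 2 ^ j := pow_le_pow_right₀ one_le_two (by omega)
  have h1j : (1 : ℝ) ≤ 2 ^ j := one_le_pow₀ one_le_two
  -- region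
  have hqb : ∀ i, |q i| ≤ ((Λ * 2 ^ h : ℕ) : ℤ) := by
    intro i
    rw [Qs, Finset.mem_filter, mem_Bx] at hq
    simpa using hq.1 i
  have hAi : ∀ i, (|(A i : ℝ)|) ≤ 8 * Λ * 2 ^ j := by
    intro i
    have h1 : ((A i : ℤ) : ℝ) = (α : ℝ) * ((k₀ : ℝ) * (q i : ℝ)) := by
      rw [hA, hu]; push_cast [Pi.smul_apply]; simp
    rw [h1, abs_mul, abs_mul, abs_of_nonneg (Nat.cast_nonneg _), abs_of_nonneg (Nat.cast_nonneg _)]
    have h2 : |(q i : ℝ)| ≤ Λ * 2 ^ h := by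
      have := hqb i
      exact_mod_cast this
    have h3 : (α : ℝ) * ((k₀ : ℝ) * |(q i : ℝ)|) ≤ α * (k₀ * (Λ * 2 ^ h)) := by gcongr
    have h4 : (α : ℝ) * (k₀ * (Λ * 2 ^ h)) = Λ * (α * U) := by
      rw [hU]; push_cast; ring
    have h5 : (α : ℝ) * U ≤ β * U := by
      have : (α : ℝ) ≤ β := by exact_mod_cast hs2.le
      gcongr
    have h6 : (Λ : ℝ) * (α * U) ≤ Λ * (8 * 2 ^ j) := by
      refine mul_le_mul_of_nonneg_left (h5.trans hs5) (Nat.cast_nonneg _)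
    calc (α : ℝ) * ((k₀ : ℝ) * |(q i : ℝ)|) ≤ Λ * (8 * 2 ^ j) := by rw [← h4] at h6; exact h3.trans h6
      _ = 8 * Λ * 2 ^ j := by ring
  obtain ⟨N, N₀, hN1, hN2, hN3, hN4, hN5⟩ := glue hR₁ hB hR₂ (by
      classical
      rw [hI, Prs, Finset.mem_filter] at hs
      exact hs.2.1) (fun _ => hoA) (fun _ => hoA')
    (slab_finite ((9 * Λ + 3 * CR + 4) * U) u α β) (by
      intro x hx1 hx2 hx3
      refine ⟨?_, ?_, ?_⟩
      · simpa [hA] using hx1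
      · simpa [hA'] using hx2
      · intro i
        have h1 := mem_Bx.1 hx3 i
        have h2 : |(x i : ℝ) - A i| ≤ ((CR * (s.1 0 - A 0).toNat : ℕ) : ℝ) +
            ((CR * (A' 0 - s.2 0).toNat : ℕ) : ℝ) + Λ * 2 ^ j + 4 := by
          have : ((|x i - A i| : ℤ) : ℝ) ≤ (((CR * (s.1 0 - A 0).toNat +
            CR * (A' 0 - s.2 0).toNat + Λ * 2 ^ j + 4 : ℕ) : ℤ) : ℝ) := by exact_mod_cast h1
          push_cast at this ⊢
          exact this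
        have h3 := hAi i
        have h4 : |(x i : ℝ)| ≤ |(x i : ℝ) - A i| + |(A i : ℝ)| := by
          have := abs_add_le ((x i : ℝ) - A i) (A i)
          rwa [sub_add_cancel] at this
        have h5 : |(x i : ℝ)| ≤ (9 * Λ + 3 * CR + 4) * 2 ^ j := by
          have h6 : (CR : ℝ) * 2 ^ (j - h₅) ≤ CR * 2 ^ j := by gcongr
          have h7 : (CR : ℝ) * (2 * 2 ^ (j - h₅)) ≤ CR * (2 * 2 ^ j) := by gcongr
          nlinarith
        calc |(x i : ℝ)| ≤ (9 * Λ + 3 * CR + 4) * 2 ^ j := h5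
          _ ≤ (9 * Λ + 3 * CR + 4) * (U * β) := by gcongr
          _ = (9 * Λ + 3 * CR + 4) * U * β := by ring)
  refine ⟨N, le_trans ?_ hN5⟩
  rw [Real.exp_le_exp]
  -- surplus
  have hN2' : (N : ℝ) ≤ N₀ + CR * 2 ^ (j - h₅) + CR * (2 * 2 ^ (j - h₅)) + 4 := by
    have : (N : ℝ) ≤ N₀ + ((CR * (s.1 0 - A 0).toNat : ℕ) : ℝ) +
        ((CR * (A' 0 - s.2 0).toNat : ℕ) : ℝ) + 4 := by exact_mod_cast hN2
    linarith
  have hN3' : (2 : ℝ) ^ j ≤ N₀ := by exact_mod_cast hN3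
  have k1 : b * (CR * 2 ^ (j - h₅) + CR * (2 * 2 ^ (j - h₅))) ≤ (b' - b) / 8 * 2 ^ j := by
    have h1 : 24 * b * CR ≤ (b' - b) * 2 ^ h₅ := by
      have := hh₆ h₅ hh₅
      rw [div_le_iff₀ hη] at this
      linarith
    have h2 : b * (CR * 2 ^ (j - h₅) + CR * (2 * 2 ^ (j - h₅))) = (24 * b * CR) / 8 * 2 ^ (j - h₅) := by
      ring
    rw [h2, ← hsplit]
    have h3 : (24 * b * CR) / 8 * 2 ^ (j - h₅) ≤ ((b' - b) * 2 ^ h₅) / 8 * 2 ^ (j - h₅) := by gcongr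
    calc _ ≤ _ := h3
      _ = _ := by ring
  have k2 : b * 4 ≤ (b' - b) / 8 * 2 ^ j := by
    have := hj₃ j hj3
    rw [div_le_iff₀ hη] at this
    linarith
  have k3 : (b' - b) * (U : ℝ) / 32 * β ≤ (b' - b) / 4 * 2 ^ j := by
    have : (b' - b) * ((β : ℝ) * U) ≤ (b' - b) * (8 * 2 ^ j) := by gcongr
    calc (b' - b) * (U : ℝ) / 32 * β = (b' - b) * ((β : ℝ) * U) / 32 := by ring
      _ ≤ (b' - b) * (8 * 2 ^ j) / 32 := by gcongr
      _ = _ := by ring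
  have k4 : b * N ≤ b * (N₀ + CR * 2 ^ (j - h₅) + CR * (2 * 2 ^ (j - h₅)) + 4) := by gcongr
  have k5 : (b' - b) * 2 ^ j ≤ (b' - b) * N₀ := by gcongr
  nlinarith

theorem bridgeMod_aux {κ : Kind} {p : unitInterval} (RS : RoadSys κ (n + 2) p) (hp : 0 < (p : ℝ))
    (b b' : ℝ) (hb : 0 ≤ b) (hbb : b < b') (Λ K : ℕ) (c₀ : ℝ) (hc₀ : 0 < c₀) (U₀ : ℕ) :
    Ctrl RS b c₀ U₀ (Λ + 1) (BR κ (d := n + 2) b' Λ K) := by
  classical
  obtain ⟨c₄, h₆, hc₄, hmod⟩ := mod_le RS hp b b' hb hbb Λ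
  have hη : 0 < b' - b := sub_pos.2 hbb
  have hc₁ : 0 < c₀ * (b' - b) / 32 := by positivity
  obtain ⟨h₇, hh₇⟩ := exists_pow_ge (4 / (c₀ * (b' - b) / 32))
  set h₅ : ℕ := max h₆ h₇ with hh₅
  set h : ℕ := h₅ + 1 with hh
  set k₀ : ℕ := RS.L * (U₀ + 1) with hk₀
  have hk1 : 1 ≤ k₀ := Nat.one_le_iff_ne_zero.2 (Nat.mul_ne_zero (by have := RS.hL; omega) (by omega))
  set U : ℕ := k₀ * 2 ^ h with hU
  have hU1 : 1 ≤ U := Nat.one_le_iff_ne_zero.2 (by positivity)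
  obtain ⟨C₁, j₁, hj₁⟩ := hmod h₅ (le_max_left _ _) h k₀ hk1 (le_refl _)
  obtain ⟨j₂, hj₂⟩ := scale_size U h₅ hU1 (c₀ * (b' - b) / 32) hc₁ (by
    have := hh₇ h₅ (le_max_right _ _)
    rw [div_le_iff₀ hc₁] at this
    linarith)
  set Qf := Qs n Λ h with hQf
  let eq : Qf ≃ Fin Qf.card := Qf.equivFin
  refine ⟨Qf.card, fun q => (k₀ : ℤ) • ((eq.symm q : Qf) : V (n + 2)),
    (b' - b) * ((U : ℕ) : ℝ) / 32, C₁,
    2 * (n + 2) * (Bx (0 : V (n + 2)) (K * 2 ^ h)).card * (1 / c₄),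
    fun _ j => al U h₅ j, fun _ j => be U h₅ j, max (max j₁ j₂) h, h₅ + 8, ?_, by omega, ?_, ?_, ?_⟩
  · positivity
  · intro q
    have hqm : ((eq.symm q : Qf) : V (n + 2)) ∈ Qs n Λ h := (eq.symm q).2
    rw [Qs, Finset.mem_filter, mem_Bx] at hqm
    obtain ⟨hq1, hq2⟩ := hqm
    set qq : V (n + 2) := ((eq.symm q : Qf) : V (n + 2)) with hqq
    have h2h : (1 : ℤ) ≤ 2 ^ h := one_le_pow₀ (by norm_num)
    refine ⟨?_, ?_, ?_⟩
    · simp only [Pi.smul_apply, smul_eq_mul, hq2]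
      have h1 : (U₀ : ℤ) ≤ k₀ := by
        rw [hk₀]; push_cast
        have : (1 : ℤ) ≤ RS.L := by exact_mod_cast RS.hL
        nlinarith
      nlinarith
    · intro i
      show |((k₀ : ℤ) • qq) i| ≤ ((Λ + 1 : ℕ) : ℤ) * ((k₀ : ℤ) • qq) 0
      simp only [Pi.smul_apply, smul_eq_mul, hq2]
      have h1 := hq1 i
      simp only [Pi.zero_apply, sub_zero] at h1
      push_cast at h1
      rw [abs_mul, abs_of_nonneg (Int.natCast_nonneg k₀)]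
      have hk : (0 : ℤ) ≤ k₀ := Int.natCast_nonneg _
      have hL : (0 : ℤ) ≤ Λ := Int.natCast_nonneg _
      push_cast
      have h3 : (k₀ : ℤ) * |qq i| ≤ k₀ * (Λ * 2 ^ h) := mul_le_mul_of_nonneg_left h1 hk
      have h4 : (0 : ℤ) ≤ k₀ * 2 ^ h := by positivity
      have h5 : ((Λ : ℤ) + 1) * (k₀ * 2 ^ h) = k₀ * (Λ * 2 ^ h) + k₀ * 2 ^ h := by ring
      linarith
    · intro i
      simp only [Pi.smul_apply, smul_eq_mul]
      rw [hk₀]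
      push_cast
      exact ⟨(U₀ + 1) * qq i, by ring⟩
  · intro q j hj
    have hj2 : j₂ ≤ j := le_trans (le_trans (le_max_right _ _) (le_max_left _ _)) hj
    obtain ⟨hs1, hs2, hs3, hs4, hs5, hs6⟩ := hj₂ j hj2
    have hqm : ((eq.symm q : Qf) : V (n + 2)) ∈ Qs n Λ h := (eq.symm q).2
    rw [Qs, Finset.mem_filter] at hqm
    refine ⟨hs1, hs2, ?_, hs6⟩
    simp only [Pi.smul_apply, smul_eq_mul, hqm.2]
    have h1 : (((k₀ : ℤ) * 2 ^ h : ℤ) : ℝ) = (U : ℝ) := by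
      rw [hU]; push_cast; ring
    rw [h1]
    calc (al U h₅ j : ℝ) * U ≤ c₀ * (b' - b) / 32 * 2 ^ j := hs3
      _ ≤ c₀ * (b' - b) / 32 * (U * be U h₅ j) := by gcongr
      _ = _ := by ring
  · intro j hj
    have hj1 : j₁ ≤ j := le_trans (le_trans (le_max_left _ _) (le_max_left _ _)) hj
    have hjh : h ≤ j := le_trans (le_max_right _ _) hj
    have h1 := br_le (n := n) κ p b' Λ K j h hjh (fun q => ac U h₅ j ((k₀ : ℤ) • q))
    refine h1.trans ?_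
    have h2 : ∑ q ∈ Qs n Λ h, (prodBern (El (n + 2)) p).real
        (Bcl κ b' Λ j h q (ac U h₅ j ((k₀ : ℤ) • q))) ≤ (1 / c₄) * ∑ q ∈ Qs n Λ h,
        (prodBern (El (n + 2)) p).real (Mod κ b ((b' - b) * ((U : ℕ) : ℝ) / 32) C₁ ((k₀ : ℤ) • q)
          (al U h₅ j) (be U h₅ j)) := by
      rw [Finset.mul_sum]
      refine Finset.sum_le_sum fun q hq => ?_
      have h3 := hj₁ j hj1 q hq
      rw [one_div, ← div_eq_inv_mul, le_div_iff₀ hc₄, mul_comm]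
      exact h3
    have h4 : ∑ q ∈ Qs n Λ h, (prodBern (El (n + 2)) p).real (Mod κ b ((b' - b) * ((U : ℕ) : ℝ) / 32) C₁
        ((k₀ : ℤ) • q) (al U h₅ j) (be U h₅ j)) = ∑ q : Fin Qf.card, (prodBern (El (n + 2)) p).real
        (Mod κ b ((b' - b) * ((U : ℕ) : ℝ) / 32) C₁ ((k₀ : ℤ) • ((eq.symm q : Qf) : V (n + 2)))
          (al U h₅ j) (be U h₅ j)) := by
      rw [← Finset.sum_coe_sort (Qs n Λ h)]
      exact Fintype.sum_equiv eq _ _ (fun x => by simp)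
    rw [← h4]
    calc _ ≤ 2 * (n + 2) * (Bx (0 : V (n + 2)) (K * 2 ^ h)).card * ((1 / c₄) * ∑ q ∈ Qs n Λ h,
        (prodBern (El (n + 2)) p).real (Mod κ b ((b' - b) * ((U : ℕ) : ℝ) / 32) C₁ ((k₀ : ℤ) • q)
          (al U h₅ j) (be U h₅ j))) := by gcongr
      _ = _ := by ring

end Pool.Agent.H94.BM
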