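import Pool.Agent.H94.BM.Defs

/-!
# BM module Line: the line of centres of a road

Three legs: up from `v + s e0` to `v + (g/2) e0`, `g = w 0 - v 0`; a lattice path at height
`v 0 + g/2` to `w - (g - g/2) e0`; up to `w - s e0`. Consecutive values are equal or adjacent.
-/

open MeasureTheory Filter Topology
open Pool.Agent.H17.IIC Pool.Agent.H41.QC Pool.Agent.H47.GM Pool.Agent.H17.QA

namespace Pool.Agent.H94.BM

variable {n : ℕ}

/-- height distance to the nearer end -/
def hd (v w x : V (n + 2)) : ℕ := (min (x 0 - v 0) (w 0 - x 0)).toNat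

/-- lattice path between two points -/
lemma Line_path {d : ℕ} : ∀ (m : ℕ) (a b : V d), (∑ i, (b i - a i).natAbs) = m →
    ∃ l : List (V d), l.head? = some a ∧ l.getLast? = some b ∧
      l.IsChain (fun a b => a = b ∨ LatAdj a b) ∧ l.length = m + 1 ∧
      ∀ x ∈ l, ∀ i, min (a i) (b i) ≤ x i ∧ x i ≤ max (a i) (b i) := by
  intro m
  induction m with
  | zero =>
    intro a b h
    have hab : a = b := by
      funext i
      have := (Finset.sum_eq_zero_iff.1 h) i (Finset.mem_univ i)
      omega
    subst hab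
    refine ⟨[a], rfl, rfl, List.isChain_singleton _, rfl, ?_⟩
    intro x hx i
    rw [List.mem_singleton] at hx
    subst hx
    simp
  | succ m ih =>
    intro a b h
    obtain ⟨i, hi⟩ : ∃ i, a i ≠ b i := by
      by_contra hcon
      push Not at hcon
      have : ∑ i, (b i - a i).natAbs = 0 := Finset.sum_eq_zero fun i _ => by
        rw [hcon i]; simp
      omega
    set σ : ℤ := if a i < b i then 1 else -1 with hσ
    set a' : V d := a + stepVec (i, decide (a i < b i)) with ha'
    have ha'i : a' i = a i + σ := by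
      rw [ha']
      simp only [Pi.add_apply, stepVec, Pi.single_eq_same, decide_eq_true_eq, hσ]
    have ha'o : ∀ j, j ≠ i → a' j = a j := by
      intro j hj
      rw [ha']
      simp only [Pi.add_apply, stepVec]
      rw [Pi.single_eq_of_ne hj, add_zero]
    have hσ1 : (b i - a' i).natAbs + 1 = (b i - a i).natAbs := by
      rw [ha'i, hσ]
      split_ifs with hc <;> omega
    have hsum : ∑ j, (b j - a' j).natAbs = m := by
      have e1 := Finset.add_sum_erase Finset.univ (fun j => (b j - a' j).natAbs)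
        (Finset.mem_univ i)
      have e2 := Finset.add_sum_erase Finset.univ (fun j => (b j - a j).natAbs)
        (Finset.mem_univ i)
      have e3 : ∑ j ∈ Finset.univ.erase i, (b j - a' j).natAbs =
          ∑ j ∈ Finset.univ.erase i, (b j - a j).natAbs :=
        Finset.sum_congr rfl fun j hj => by rw [ha'o j (Finset.ne_of_mem_erase hj)]
      omega
    obtain ⟨l, h1, h2, h3, h4, h5⟩ := ih a' b hsum
    refine ⟨a :: l, rfl, ?_, ?_, by simp [h4], ?_⟩
    · cases l with
      | nil => simp at h1
      | cons c t => rw [List.getLast?_cons_cons]; exact h2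
    · rw [List.isChain_cons]
      refine ⟨?_, h3⟩
      intro y hy
      rw [h1] at hy
      right
      have : a' = y := by simpa using hy
      rw [← this]
      exact ⟨_, rfl⟩
    · intro x hx j
      rw [List.mem_cons] at hx
      rcases hx with rfl | hx
      · exact ⟨min_le_left _ _, le_max_left _ _⟩
      · have := h5 x hx j
        by_cases hj : j = i
        · subst hj
          rw [ha'i, hσ] at this
          split_ifs at this with hc <;> omega
        · rw [ha'o j hj] at this
          exact this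

/-- straight segment in direction `e0` -/
def Line_seg (v : V (n + 2)) (σ : ℤ) (s m : ℕ) : List (V (n + 2)) :=
  (List.range (m + 1)).map fun t => v + (σ * ((s + t : ℕ) : ℤ)) • e0

lemma Line_seg_head (v : V (n + 2)) (σ : ℤ) (s m : ℕ) :
    (Line_seg v σ s m).head? = some (v + (σ * (s : ℤ)) • e0) := by
  unfold Line_seg
  rw [List.range_succ_eq_map]
  simp

lemma Line_seg_last (v : V (n + 2)) (σ : ℤ) (s m : ℕ) :
    (Line_seg v σ s m).getLast? = some (v + (σ * ((s + m : ℕ) : ℤ)) • e0) := by
  unfold Line_seg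
  rw [List.range_succ]
  simp

lemma Line_seg_length (v : V (n + 2)) (σ : ℤ) (s m : ℕ) :
    (Line_seg v σ s m).length = m + 1 := by
  unfold Line_seg; simp

lemma Line_seg_chain (v : V (n + 2)) (σ : ℤ) (hσ : σ = 1 ∨ σ = -1) (s m : ℕ) :
    (Line_seg v σ s m).IsChain (fun a b => a = b ∨ LatAdj a b) := by
  rw [List.isChain_iff_getElem]
  intro i hi
  right
  unfold Line_seg
  simp only [List.getElem_map, List.getElem_range]
  refine ⟨(0, decide (σ = 1)), ?_⟩
  funext j
  rcases hσ with h | h <;> subst h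
  · by_cases hj : j = 0
    · subst hj
      simp [stepVec, e0]
      ring
    · simp [stepVec, e0, hj]
  · by_cases hj : j = 0
    · subst hj
      simp [stepVec, e0]
      ring
    · simp [stepVec, e0, hj]

lemma Line_seg_mem {v : V (n + 2)} {σ : ℤ} {s m : ℕ} {x : V (n + 2)}
    (hx : x ∈ Line_seg v σ s m) : ∃ t, t ≤ m ∧ x = v + (σ * ((s + t : ℕ) : ℤ)) • e0 := by
  unfold Line_seg at hx
  rw [List.mem_map] at hx
  obtain ⟨t, ht, rfl⟩ := hx
  rw [List.mem_range] at ht
  exact ⟨t, by omega, rfl⟩

lemma Line_zero (v : V (n + 2)) (a : ℤ) :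
    (v + a • (e0 : V (n + 2)) : V (n + 2)) 0 = v 0 + a := by
  simp [e0]

lemma Line_ne (v : V (n + 2)) (a : ℤ) {i : Fin (n + 2)} (hi : i ≠ 0) :
    (v + a • (e0 : V (n + 2)) : V (n + 2)) i = v i := by
  simp [e0, hi]

lemma Line_geom {c : ℝ} (hc : 0 < c) (m : ℕ) :
    ∑ t ∈ Finset.range m, Real.exp (-c * ((t / 16 : ℕ) : ℝ)) ≤
      Real.exp c * (1 - Real.exp (-c / 16))⁻¹ := by
  have hr : Real.exp (-c / 16) < 1 := by
    rw [Real.exp_lt_one_iff]; linarith
  have hr0 : 0 ≤ Real.exp (-c / 16) := (Real.exp_pos _).le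
  have h1 : ∀ t : ℕ, Real.exp (-c * ((t / 16 : ℕ) : ℝ)) ≤ Real.exp c * Real.exp (-c / 16) ^ t := by
    intro t
    rw [← Real.exp_nat_mul, ← Real.exp_add]
    apply Real.exp_le_exp.2
    have h2 : (t : ℝ) ≤ 16 * ((t / 16 : ℕ) : ℝ) + 16 := by
      have : t ≤ 16 * (t / 16) + 16 := by omega
      exact_mod_cast this
    nlinarith
  calc ∑ t ∈ Finset.range m, Real.exp (-c * ((t / 16 : ℕ) : ℝ))
      ≤ ∑ t ∈ Finset.range m, Real.exp c * Real.exp (-c / 16) ^ t :=
        Finset.sum_le_sum fun t _ => h1 t
    _ = Real.exp c * ∑ t ∈ Finset.range m, Real.exp (-c / 16) ^ t := by rw [Finset.mul_sum]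
    _ ≤ Real.exp c * (1 - Real.exp (-c / 16))⁻¹ := by
        apply mul_le_mul_of_nonneg_left _ (Real.exp_pos _).le
        rw [← tsum_geometric_of_lt_one hr0 hr]
        exact (summable_geometric_of_lt_one hr0 hr).sum_le_tsum _ (fun i _ => by positivity)

lemma Line_range_sum (f : ℕ → ℝ) (m : ℕ) :
    ((List.range m).map f).sum = ∑ t ∈ Finset.range m, f t := by
  induction m with
  | zero => simp
  | succ m ih => rw [List.range_succ, List.map_append, List.sum_append, ih,
      Finset.sum_range_succ]; simp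

/-- the sum over a segment -/
lemma Line_seg_sum {c : ℝ} (hc : 0 < c) (v w u : V (n + 2)) (σ : ℤ) (s m : ℕ)
    (h : ∀ t, t ≤ m → t ≤ hd v w (u + (σ * ((s + t : ℕ) : ℤ)) • e0)) :
    ((Line_seg u σ s m).map fun x => Real.exp (-c * ((hd v w x / 16 : ℕ) : ℝ))).sum ≤
      Real.exp c * (1 - Real.exp (-c / 16))⁻¹ := by
  unfold Line_seg
  rw [List.map_map, Line_range_sum]
  refine le_trans (Finset.sum_le_sum fun t ht => ?_) (Line_geom hc (m + 1))
  rw [Finset.mem_range] at ht
  apply Real.exp_le_exp.2
  have h1 := h t (by omega)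
  have h2 : ((t / 16 : ℕ) : ℝ) ≤
      ((hd v w (u + (σ * ((s + t : ℕ) : ℤ)) • e0) / 16 : ℕ) : ℝ) := by
    exact_mod_cast Nat.div_le_div_right h1
  nlinarith

/-- THE LINE. `s` is the distance of the first and last centre to the ends. The sum bound is uniform. -/
theorem line_exists (n Λ' : ℕ) (c : ℝ) (hc : 0 < c) :
    ∃ K : ℝ, 0 < K ∧ ∀ (s : ℕ), 1 ≤ s → ∀ v w : V (n + 2), (4 * s : ℤ) ≤ w 0 - v 0 →
      (∀ i, |w i - v i| ≤ Λ' * (w 0 - v 0)) →
      ∃ l : List (V (n + 2)), l.head? = some (v + (s : ℤ) • e0) ∧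
        l.getLast? = some (w - (s : ℤ) • e0) ∧ l.IsChain (fun a b => a = b ∨ LatAdj a b) ∧
        (∀ x ∈ l, (s : ℤ) ≤ x 0 - v 0 ∧ (s : ℤ) ≤ w 0 - x 0 ∧
          ∀ i, |x i - v i| ≤ (Λ' + 1) * (w 0 - v 0)) ∧
        (l.length : ℤ) ≤ ((n + 1) * Λ' + 3) * (w 0 - v 0) ∧
        (l.map fun x => Real.exp (-c * ((hd v w x / 16 : ℕ) : ℝ))).sum ≤ K := by
  set K1 := Real.exp c * (1 - Real.exp (-c / 16))⁻¹ with hK1
  set A : ℝ := 32 * ((n + 1) * Λ') + 1 with hA
  have hA0 : 1 ≤ A := by
    have : (0:ℝ) ≤ 32 * ((n + 1) * Λ') := by positivity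
    linarith
  have hr : Real.exp (-c / 16) < 1 := by
    rw [Real.exp_lt_one_iff]; linarith
  have hK10 : 0 < K1 := mul_pos (Real.exp_pos _) (inv_pos.2 (by linarith))
  refine ⟨K1 + A * (1 / c + 1) + K1, by positivity, ?_⟩
  intro s hs v w hvw hdist
  obtain ⟨g, hg⟩ : ∃ g : ℕ, (g : ℤ) = w 0 - v 0 := ⟨(w 0 - v 0).toNat, by omega⟩
  rw [← hg] at hvw hdist ⊢
  have hg4 : 4 * s ≤ g := by exact_mod_cast hvw
  set p := g / 2 with hp
  set q := g - g / 2 with hq
  have hps : s ≤ p := by omega
  have hqs : s ≤ q := by omega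
  -- the legs
  set L1 := Line_seg v 1 s (p - s) with hL1
  set L3 := (Line_seg w (-1) s (q - s)).reverse with hL3
  set a : V (n + 2) := v + (p : ℤ) • e0 with ha
  set b : V (n + 2) := w + (-(q : ℤ)) • e0 with hb
  have hab0 : a 0 = b 0 := by
    rw [ha, hb, Line_zero, Line_zero]; omega
  obtain ⟨L2, l1, l2, l3, l4, l5⟩ := Line_path (∑ i, (b i - a i).natAbs) a b rfl
  have hlen2 : ∑ i, (b i - a i).natAbs ≤ (n + 1) * (Λ' * g) := by
    rw [Fin.sum_univ_succ, hab0]
    simp only [sub_self, Int.natAbs_zero, zero_add]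
    have : ∀ i : Fin (n + 1), (b i.succ - a i.succ).natAbs ≤ Λ' * g := by
      intro i
      have h1 := hdist i.succ
      rw [ha, hb, Line_ne _ _ (Fin.succ_ne_zero i), Line_ne _ _ (Fin.succ_ne_zero i)]
      have h2 : ((w i.succ - v i.succ).natAbs : ℤ) ≤ ((Λ' * g : ℕ) : ℤ) := by
        rw [Int.natCast_natAbs]; push_cast; exact h1
      exact_mod_cast h2
    refine (Finset.sum_le_sum fun i _ => this i).trans ?_
    simp
  have c1 : L1.IsChain (fun a b => a = b ∨ LatAdj a b) := Line_seg_chain v 1 (Or.inl rfl) _ _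
  have c3 : L3.IsChain (fun a b => a = b ∨ LatAdj a b) := by
    rw [hL3, List.isChain_reverse]
    refine (Line_seg_chain w (-1) (Or.inr rfl) _ _).imp ?_
    intro x y hxy
    rcases hxy with h | h
    · exact Or.inl h.symm
    · exact Or.inr (LatAdj.symm h)
  have h1last : L1.getLast? = some a := by
    rw [hL1, Line_seg_last, ha]
    congr 3
    rw [one_mul]
    congr 1
    omega
  have h3head : L3.head? = some b := by
    rw [hL3, List.head?_reverse, Line_seg_last, hb]
    congr 3
    have : ((s + (q - s) : ℕ) : ℤ) = q := by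
      congr 1
      omega
    rw [this]; ring
  have h1ne : L1 ≠ [] := by intro h; rw [h] at h1last; simp at h1last
  have h2ne : L2 ≠ [] := by intro h; rw [h] at l1; simp at l1
  have h3ne : L3 ≠ [] := by intro h; rw [h] at h3head; simp at h3head
  have hD : ∀ i, i ≠ (0 : Fin (n + 2)) → |w i - v i| ≤ Λ' * g := fun i _ => hdist i
  have hLg : (0 : ℤ) ≤ Λ' * g := by positivity
  -- points of the second leg
  have m2 : ∀ x ∈ L2, x 0 = v 0 + p ∧ ∀ i, |x i - v i| ≤ (Λ' + 1) * g := by
    intro x hx
    have hx0 : x 0 = v 0 + p := by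
      have h5 := l5 x hx 0
      rw [← hab0] at h5
      have ha0 : a 0 = v 0 + p := by rw [ha, Line_zero]
      rw [← ha0]
      omega
    refine ⟨hx0, fun i => ?_⟩
    by_cases hi : i = 0
    · subst hi
      rw [hx0, abs_le]
      have : (p : ℤ) ≤ g := by exact_mod_cast (by omega : p ≤ g)
      constructor <;> nlinarith
    · have h5 := l5 x hx i
      rw [ha, hb, Line_ne _ _ hi, Line_ne _ _ hi] at h5
      have h6 := hD i hi
      have h7 : |x i - v i| ≤ |w i - v i| := by
        rcases le_total (v i) (w i) with h | h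
        · rw [min_eq_left h, max_eq_right h] at h5
          rw [abs_of_nonneg (by linarith), abs_of_nonneg (by linarith)]
          linarith
        · rw [min_eq_right h, max_eq_left h] at h5
          rw [abs_of_nonpos (by linarith), abs_of_nonpos (by linarith)]
          linarith
      nlinarith [h7.trans h6, Int.natCast_nonneg g]
  refine ⟨L1 ++ (L2 ++ L3), ?_, ?_, ?_, ?_, ?_, ?_⟩
  · rw [List.head?_append_of_ne_nil _ h1ne, hL1, Line_seg_head, one_mul]
  · rw [List.getLast?_append_of_ne_nil _ (by simp [h2ne]), List.getLast?_append_of_ne_nil _ h3ne,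
      hL3, List.getLast?_reverse, Line_seg_head]
    congr 1
    rw [neg_one_mul, neg_smul, sub_eq_add_neg]
  · rw [List.isChain_append, List.isChain_append]
    refine ⟨c1, ⟨l3, c3, ?_⟩, ?_⟩
    · intro x hx y hy
      rw [l2] at hx
      rw [h3head] at hy
      left
      have e1 : b = x := by simpa using hx
      have e2 : b = y := by simpa using hy
      rw [← e1, ← e2]
    · intro x hx y hy
      rw [h1last] at hx
      rw [List.head?_append_of_ne_nil _ h2ne, l1] at hy
      left
      have e1 : a = x := by simpa using hx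
      have e2 : a = y := by simpa using hy
      rw [← e1, ← e2]
  · intro x hx
    rw [List.mem_append, List.mem_append] at hx
    rcases hx with hx | hx | hx
    · obtain ⟨t, ht, rfl⟩ := Line_seg_mem hx
      rw [one_mul, Line_zero]
      refine ⟨by push_cast; omega, by push_cast; omega, fun i => ?_⟩
      by_cases hi : i = 0
      · subst hi
        rw [Line_zero, abs_le]
        have : ((s + t : ℕ) : ℤ) ≤ g := by exact_mod_cast (by omega : s + t ≤ g)
        constructor <;> nlinarith
      · rw [Line_ne _ _ hi]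
        simp only [sub_self, abs_zero]
        positivity
    · obtain ⟨h0, h1⟩ := m2 x hx
      exact ⟨by omega, by omega, h1⟩
    · rw [hL3, List.mem_reverse] at hx
      obtain ⟨t, ht, rfl⟩ := Line_seg_mem hx
      rw [neg_one_mul, Line_zero]
      refine ⟨by push_cast; omega, by push_cast; omega, fun i => ?_⟩
      by_cases hi : i = 0
      · subst hi
        rw [Line_zero, abs_le]
        have h8 : ((s + t : ℕ) : ℤ) ≤ g := by exact_mod_cast (by omega : s + t ≤ g)
        constructor
        · have : w 0 + -((s + t : ℕ) : ℤ) - v 0 = g - ((s + t : ℕ) : ℤ) := by omega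
          rw [this]; nlinarith
        · have : w 0 + -((s + t : ℕ) : ℤ) - v 0 = g - ((s + t : ℕ) : ℤ) := by omega
          rw [this]; nlinarith
      · rw [Line_ne _ _ hi]
        have := hD i hi
        nlinarith [Int.natCast_nonneg g]
  · rw [List.length_append, List.length_append, hL1, Line_seg_length, l4, hL3,
      List.length_reverse, Line_seg_length]
    have h9 : (p - s + 1) + ((∑ i, (b i - a i).natAbs) + 1 + (q - s + 1)) ≤
        ((n + 1) * Λ' + 3) * g := by
      have : ((n + 1) * Λ' + 3) * g = (n + 1) * (Λ' * g) + 3 * g := by ring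
      rw [this]
      omega
    exact_mod_cast h9
  · rw [List.map_append, List.map_append, List.sum_append, List.sum_append]
    have s1 : (L1.map fun x => Real.exp (-c * ((hd v w x / 16 : ℕ) : ℝ))).sum ≤ K1 := by
      apply Line_seg_sum hc
      intro t ht
      unfold hd
      rw [one_mul, Line_zero]
      push_cast
      omega
    have s3 : (L3.map fun x => Real.exp (-c * ((hd v w x / 16 : ℕ) : ℝ))).sum ≤ K1 := by
      rw [hL3, List.map_reverse, List.sum_reverse]
      apply Line_seg_sum hc
      intro t ht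
      unfold hd
      rw [neg_one_mul, Line_zero]
      push_cast
      omega
    have s2 : (L2.map fun x => Real.exp (-c * ((hd v w x / 16 : ℕ) : ℝ))).sum ≤
        A * (1 / c + 1) := by
      have hle : ∀ y ∈ (L2.map fun x => Real.exp (-c * ((hd v w x / 16 : ℕ) : ℝ))),
          y ≤ Real.exp (-c * ((g / 32 : ℕ) : ℝ)) := by
        intro y hy
        rw [List.mem_map] at hy
        obtain ⟨x, hx, rfl⟩ := hy
        apply Real.exp_le_exp.2
        have hh : g / 32 ≤ hd v w x / 16 := by
          have h0 := (m2 x hx).1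
          have : p ≤ hd v w x := by unfold hd; omega
          omega
        have : ((g / 32 : ℕ) : ℝ) ≤ ((hd v w x / 16 : ℕ) : ℝ) := by exact_mod_cast hh
        nlinarith
      refine (List.sum_le_card_nsmul _ _ hle).trans ?_
      rw [List.length_map, l4, nsmul_eq_mul]
      have hl : (((∑ i, (b i - a i).natAbs) + 1 : ℕ) : ℝ) ≤ A * ((g / 32 : ℕ) + 1) := by
        have h10 : (((∑ i, (b i - a i).natAbs) + 1 : ℕ) : ℝ) ≤ (((n + 1) * (Λ' * g) + 1 : ℕ) : ℝ) := by
          exact_mod_cast Nat.add_le_add_right hlen2 1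
        have h11 : (g : ℝ) ≤ 32 * (((g / 32 : ℕ) : ℝ) + 1) := by
          have : g ≤ 32 * (g / 32 + 1) := by omega
          exact_mod_cast this
        have h12 : (0:ℝ) ≤ (n + 1) * Λ' := by positivity
        have h13 : (0:ℝ) ≤ ((g / 32 : ℕ) : ℝ) := by positivity
        refine h10.trans ?_
        push_cast
        rw [hA]
        nlinarith [mul_le_mul_of_nonneg_left h11 h12]
      have hx0 : (0:ℝ) ≤ ((g / 32 : ℕ) : ℝ) := by positivity
      set y : ℝ := ((g / 32 : ℕ) : ℝ) with hy
      have he : (y + 1) * Real.exp (-c * y) ≤ 1 / c + 1 := by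
        have h14 : 1 + c * y ≤ Real.exp (c * y) := by linarith [Real.add_one_le_exp (c * y)]
        have h15 : y + 1 ≤ (1 / c + 1) * Real.exp (c * y) := by
          have h16 : (1 / c + 1) * (1 + c * y) ≤ (1 / c + 1) * Real.exp (c * y) :=
            mul_le_mul_of_nonneg_left h14 (by positivity)
          have h17 : (1 / c + 1) * (1 + c * y) = 1 / c + y + 1 + c * y := by
            field_simp
            ring
          have h18 : 0 < 1 / c := by positivity
          nlinarith
        have h19 : Real.exp (c * y) * Real.exp (-c * y) = 1 := by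
          rw [← Real.exp_add]; simp
        calc (y + 1) * Real.exp (-c * y)
            ≤ ((1 / c + 1) * Real.exp (c * y)) * Real.exp (-c * y) :=
              mul_le_mul_of_nonneg_right h15 (Real.exp_pos _).le
          _ = 1 / c + 1 := by rw [mul_assoc, h19, mul_one]
      calc (((∑ i, (b i - a i).natAbs) + 1 : ℕ) : ℝ) * Real.exp (-c * y)
          ≤ (A * (y + 1)) * Real.exp (-c * y) :=
            mul_le_mul_of_nonneg_right hl (Real.exp_pos _).le
        _ = A * ((y + 1) * Real.exp (-c * y)) := by ring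
        _ ≤ A * (1 / c + 1) := mul_le_mul_of_nonneg_left he (by linarith)
    linarith

end Pool.Agent.H94.BM
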